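import Pool.Agent.Q102.HL.DelFin

set_option autoImplicit false

/-!
# Adding few points destroys most halving lines
-/

namespace Pool.Agent.Q102.HL

open Finset Pool.Agent.W296.HL Pool.Agent.Y429.HalvFew Pool.Agent.TH511.HLC

lemma gp_of_gen {P : Finset (ℝ × ℝ)} (h : Gen P) : GeneralPosition P := by
  rintro a b c hab p hp q hq r hr hpq hpr hqr ⟨h1, h2, h3⟩
  apply h p hp q hq r hr hpq hpr hqr
  unfold Line at h1 h2 h3
  have h1' : a * p.1 + b * p.2 = c := h1
  have h2' : a * q.1 + b * q.2 = c := h2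
  have h3' : a * r.1 + b * r.2 = c := h3
  have e1 : a * (q.1 - p.1) = -(b * (q.2 - p.2)) := by linarith
  have e2 : a * (r.1 - p.1) = -(b * (r.2 - p.2)) := by linarith
  unfold cr
  rcases hab with ha | hb
  · have : a * ((q.1 - p.1) * (r.2 - p.2) - (q.2 - p.2) * (r.1 - p.1)) = 0 := by
      linear_combination (r.2 - p.2) * e1 - (q.2 - p.2) * e2
    exact (mul_eq_zero.1 this).resolve_left ha
  · have : b * ((q.1 - p.1) * (r.2 - p.2) - (q.2 - p.2) * (r.1 - p.1)) = 0 := by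
      linear_combination (q.1 - p.1) * e2 - (r.1 - p.1) * e1
    exact (mul_eq_zero.1 this).resolve_left hb

lemma quad_fin {a b c : ℝ} (h : a ≠ 0 ∨ b ≠ 0) : {x : ℝ | a * x ^ 2 + b * x + c = 0}.Finite := by
  have hp : (Polynomial.C a * Polynomial.X ^ 2 + Polynomial.C b * Polynomial.X +
      Polynomial.C c : Polynomial ℝ) ≠ 0 := by
    intro h0
    rcases h with h | h
    · apply h
      have := congrArg (fun p => Polynomial.coeff p 2) h0
      simpa [Polynomial.coeff_X, Polynomial.coeff_C] using this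
    · apply h
      have := congrArg (fun p => Polynomial.coeff p 1) h0
      simpa [Polynomial.coeff_X, Polynomial.coeff_C] using this
  refine (Polynomial.finite_setOfPred_isRoot hp).subset ?_
  intro x hx
  have hx' : a * x ^ 2 + b * x + c = 0 := hx
  show Polynomial.IsRoot _ x
  simp only [Polynomial.IsRoot, Polynomial.eval_add, Polynomial.eval_mul, Polynomial.eval_C,
    Polynomial.eval_pow, Polynomial.eval_X]
  exact hx'

/-- the points of two parabolas -/
def par (ε σ T x : ℝ) : ℝ × ℝ := (x - ε * (σ * (T + x ^ 2)), σ * (T + x ^ 2))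

lemma shr_par (ε σ T x : ℝ) : shr ε (par ε σ T x) = (x, σ * (T + x ^ 2)) := by
  unfold shr par
  ext <;> simp

lemma par_inj (ε σ T : ℝ) : Function.Injective (par ε σ T) := by
  intro x y h
  have := congrArg (shr ε) h
  rw [shr_par, shr_par] at this
  exact congrArg Prod.fst this

lemma par_fin {ε σ T : ℝ} (hσ : σ ≠ 0) {p q : ℝ × ℝ} (hpq : p ≠ q) :
    {x | cr p q (par ε σ T x) = 0}.Finite := by
  have h : ((shr ε q).1 - (shr ε p).1) * σ ≠ 0 ∨ -((shr ε q).2 - (shr ε p).2) ≠ 0 := by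
    by_contra hcon
    push Not at hcon
    apply hpq
    apply shr_inj ε
    have h1 := (mul_eq_zero.1 hcon.1).resolve_right hσ
    exact Prod.ext (by linarith) (by linarith [hcon.2])
  refine (quad_fin (a := ((shr ε q).1 - (shr ε p).1) * σ) (b := -((shr ε q).2 - (shr ε p).2))
    (c := ((shr ε q).1 - (shr ε p).1) * (σ * T - (shr ε p).2) +
      ((shr ε q).2 - (shr ε p).2) * (shr ε p).1) h).subset ?_
  intro x hx
  have hx' : cr p q (par ε σ T x) = 0 := hx
  rw [← cr_shr ε, shr_par] at hx'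
  unfold cr at hx'
  show _ = (0 : ℝ)
  rw [← hx']
  ring

open scoped Classical in
/-- points of a parabola can be added in general position -/
lemma add_pts {Q : Finset (ℝ × ℝ)} (hQ : Gen Q) {ε σ T : ℝ} (hσ : σ ≠ 0) (k : ℕ) :
    ∃ A : Finset (ℝ × ℝ), #A = k ∧ Disjoint A Q ∧
      (∀ a ∈ A, ∃ x ∈ Set.Icc (0 : ℝ) 1, a = par ε σ T x) ∧ Gen (Q ∪ A) := by
  induction k with
  | zero => exact ⟨∅, rfl, disjoint_empty_left _, by simp, by simpa using hQ⟩
  | succ k ih =>
    obtain ⟨A, hA, hAQ, hAp, hG⟩ := ih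
    have hfin : (⋃ z ∈ ((Q ∪ A) ×ˢ (Q ∪ A)).filter (fun z => z.1 ≠ z.2),
        {x | cr z.1 z.2 (par ε σ T x) = 0}).Finite := by
      apply Set.Finite.biUnion (finite_toSet _)
      intro z hz
      exact par_fin hσ (mem_filter.1 hz).2
    have hfin2 : {x | par ε σ T x ∈ Q ∪ A}.Finite :=
      Set.Finite.preimage (par_inj ε σ T).injOn (finite_toSet (Q ∪ A))
    have hinf : (Set.Icc (0 : ℝ) 1).Infinite := Set.Icc_infinite one_pos
    obtain ⟨x, hx, hx2⟩ := (hinf.sdiff (hfin.union hfin2)).nonempty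
    rw [Set.mem_union] at hx2
    push Not at hx2
    obtain ⟨hx3, hx4⟩ := hx2
    have hx4' : par ε σ T x ∉ Q ∪ A := hx4
    have hxA : par ε σ T x ∉ A := fun h => hx4' (mem_union_right _ h)
    have hxQ : par ε σ T x ∉ Q := fun h => hx4' (mem_union_left _ h)
    have hcr : ∀ p ∈ Q ∪ A, ∀ q ∈ Q ∪ A, p ≠ q → cr p q (par ε σ T x) ≠ 0 := by
      intro p hp q hq hpq h0
      apply hx3
      rw [Set.mem_iUnion₂]
      exact ⟨(p, q), mem_filter.2 ⟨mem_product.2 ⟨hp, hq⟩, hpq⟩, h0⟩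
    refine ⟨insert (par ε σ T x) A, by rw [card_insert_of_notMem hxA, hA], ?_, ?_, ?_⟩
    · rw [disjoint_insert_left]
      exact ⟨hxQ, hAQ⟩
    · intro a ha
      rw [mem_insert] at ha
      rcases ha with rfl | ha
      · exact ⟨x, hx, rfl⟩
      · exact hAp a ha
    · have hins : Q ∪ insert (par ε σ T x) A = insert (par ε σ T x) (Q ∪ A) := by
        ext y
        simp only [mem_union, mem_insert]
        tauto
      rw [hins]
      intro p hp q hq r hr hpq hpr hqr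
      rw [mem_insert] at hp hq hr
      rcases hp with rfl | hp
      · have hq' := hq.resolve_left (Ne.symm hpq)
        have hr' := hr.resolve_left (Ne.symm hpr)
        have := hcr q hq' r hr' hqr
        intro h0
        apply this
        rw [← h0]
        unfold cr
        ring
      · rcases hq with rfl | hq
        · have hr' := hr.resolve_left (Ne.symm hqr)
          have := hcr p hp r hr' hpr
          intro h0
          apply this
          have e : cr p r (par ε σ T x) = - cr p (par ε σ T x) r := by unfold cr; ring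
          rw [e, h0, neg_zero]
        · rcases hr with rfl | hr
          · exact hcr p hp q hq hpq
          · exact hG p hp q hq r hr hpq hpr hqr

open scoped Classical in
/-- the arcs are in convex position -/
lemma par_convex {ε σ T : ℝ} (hσ : σ ^ 2 = 1) {A : Finset (ℝ × ℝ)}
    (hA : ∀ a ∈ A, ∃ x ∈ Set.Icc (0 : ℝ) 1, a = par ε σ T x) : ConvexPosition A := by
  intro p hp hcon
  obtain ⟨x0, -, rfl⟩ := hA p hp
  -- the half-plane
  let H : Set (ℝ × ℝ) := {w | T - x0 ^ 2 < σ * (shr ε w).2 - 2 * x0 * (shr ε w).1}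
  have hHc : Convex ℝ H := by
    intro u hu v hv a b ha hb hab
    have hu' : T - x0 ^ 2 < σ * (shr ε u).2 - 2 * x0 * (shr ε u).1 := hu
    have hv' : T - x0 ^ 2 < σ * (shr ε v).2 - 2 * x0 * (shr ε v).1 := hv
    show T - x0 ^ 2 < σ * (shr ε (a • u + b • v)).2 - 2 * x0 * (shr ε (a • u + b • v)).1
    have e : σ * (shr ε (a • u + b • v)).2 - 2 * x0 * (shr ε (a • u + b • v)).1 =
        a * (σ * (shr ε u).2 - 2 * x0 * (shr ε u).1) +
        b * (σ * (shr ε v).2 - 2 * x0 * (shr ε v).1) := by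
      unfold shr
      simp only [Prod.fst_add, Prod.snd_add, Prod.smul_fst, Prod.smul_snd, smul_eq_mul]
      ring
    rw [e]
    have e2 : T - x0 ^ 2 = a * (T - x0 ^ 2) + b * (T - x0 ^ 2) := by
      rw [← add_mul, hab, one_mul]
    rw [e2]
    rcases ha.lt_or_eq with ha' | ha'
    · have h1 := mul_lt_mul_of_pos_left hu' ha'
      have h2 := mul_le_mul_of_nonneg_left hv'.le hb
      linarith
    · have hb' : 0 < b := by linarith
      have h1 := mul_lt_mul_of_pos_left hv' hb'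
      rw [← ha']
      linarith
  have hsub : (A : Set (ℝ × ℝ)) \ {par ε σ T x0} ⊆ H := by
    rintro w ⟨hw, hw2⟩
    obtain ⟨x, -, rfl⟩ := hA w hw
    have hne : x ≠ x0 := by
      rintro rfl
      exact hw2 rfl
    show T - x0 ^ 2 < σ * (shr ε _).2 - 2 * x0 * (shr ε _).1
    rw [shr_par]
    simp only
    have e : σ * (σ * (T + x ^ 2)) - 2 * x0 * x = T - x0 ^ 2 + (x - x0) ^ 2 := by
      have : σ * (σ * (T + x ^ 2)) = σ ^ 2 * (T + x ^ 2) := by ring
      rw [this, hσ]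
      ring
    rw [e]
    have : 0 < (x - x0) ^ 2 := by
      have := sub_ne_zero.2 hne
      positivity
    linarith
  have h1 : par ε σ T x0 ∈ H := convexHull_min hsub hHc hcon
  have h2 : T - x0 ^ 2 < σ * (shr ε (par ε σ T x0)).2 - 2 * x0 * (shr ε (par ε σ T x0)).1 := h1
  rw [shr_par] at h2
  simp only at h2
  have e : σ * (σ * (T + x0 ^ 2)) = σ ^ 2 * (T + x0 ^ 2) := by ring
  rw [e, hσ] at h2
  nlinarith

/-- far arcs are above and below all lines spanned by `P` -/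
lemma exists_far {P : Finset (ℝ × ℝ)} (ε : ℝ) : ∃ T : ℝ, ∀ z ∈ TP ε P,
    ∀ x ∈ Set.Icc (0 : ℝ) 1, 0 < cr z.1 z.2 (par ε 1 T x) ∧ cr z.1 z.2 (par ε (-1) T x) < 0 := by
  have h : ∀ z : (ℝ × ℝ) × (ℝ × ℝ), ∃ T0 : ℝ, (shr ε z.1).1 < (shr ε z.2).1 → ∀ T, T0 ≤ T →
      ∀ x ∈ Set.Icc (0 : ℝ) 1,
        0 < cr z.1 z.2 (par ε 1 T x) ∧ cr z.1 z.2 (par ε (-1) T x) < 0 := by
    intro z
    set p := shr ε z.1 with hp
    set q := shr ε z.2 with hq
    refine ⟨|p.2| + |q.2 - p.2| * (1 + |p.1|) / (q.1 - p.1) + 1, ?_⟩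
    intro hlt T hT x hx
    have hB : 0 < q.1 - p.1 := by linarith
    have h1 : |q.2 - p.2| * (1 + |p.1|) / (q.1 - p.1) * (q.1 - p.1) =
        |q.2 - p.2| * (1 + |p.1|) := by
      field_simp
    have h2 : |(q.2 - p.2) * (x - p.1)| ≤ |q.2 - p.2| * (1 + |p.1|) := by
      rw [abs_mul]
      apply mul_le_mul_of_nonneg_left _ (abs_nonneg _)
      have := abs_sub x p.1
      have h3 : |x| ≤ 1 := by
        rw [abs_le]
        constructor <;> linarith [hx.1, hx.2]
      linarith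
    have h3 := abs_le.1 h2
    have h4 : |q.2 - p.2| * (1 + |p.1|) + (q.1 - p.1) ≤ (q.1 - p.1) * (T - |p.2|) := by
      have h5 : |q.2 - p.2| * (1 + |p.1|) / (q.1 - p.1) + 1 ≤ T - |p.2| := by linarith
      have h6 := mul_le_mul_of_nonneg_left h5 hB.le
      nlinarith
    have h5 := le_abs_self p.2
    have h6 := neg_abs_le p.2
    have h7 := sq_nonneg x
    constructor
    · rw [← cr_shr ε, shr_par]
      unfold cr
      rw [← hp, ← hq]
      simp only
      have h8 : (q.1 - p.1) * (T - |p.2|) ≤ (q.1 - p.1) * (1 * (T + x ^ 2) - p.2) :=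
        mul_le_mul_of_nonneg_left (by linarith) hB.le
      linarith [h3.2]
    · rw [← cr_shr ε, shr_par]
      unfold cr
      rw [← hp, ← hq]
      simp only
      have h8 : (q.1 - p.1) * (-1 * (T + x ^ 2) - p.2) ≤ (q.1 - p.1) * (-(T - |p.2|)) :=
        mul_le_mul_of_nonneg_left (by linarith) hB.le
      have h9 : (q.1 - p.1) * (-(T - |p.2|)) = -((q.1 - p.1) * (T - |p.2|)) := by ring
      rw [h9] at h8
      linarith [h3.1]
  choose T0 hT0 using h
  obtain ⟨T, hT⟩ : ∃ T : ℝ, ∀ z ∈ TP ε P, T0 z ≤ T := by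
    obtain ⟨M, hM⟩ := ((TP ε P).image T0).bddAbove
    exact ⟨M, fun z hz => hM (mem_image_of_mem T0 hz)⟩
  exact ⟨T, fun z hz x hx => hT0 z (mem_TP.1 hz).2.2 T (hT z hz) x hx⟩

open scoped Classical in
/-- bisectors of a larger set -/
lemma bis_add {P Q A : Finset (ℝ × ℝ)} {ε : ℝ}
    (hε : ∀ x ∈ P, ∀ y ∈ P, (shr ε x).1 = (shr ε y).1 → x = y) (hQ : Q = P ∪ A) :
    {L | IsBisector Q L}.ncard ≤ {L | IsBisector Q L ∧ ∃ p ∈ A, p ∈ L}.ncard +
      #{z ∈ TP ε P | Hv Q z.1 z.2} := by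
  have hf := bis_finite Q
  have h1 : {L | IsBisector Q L} = {L | IsBisector Q L ∧ ∃ p ∈ A, p ∈ L} ∪
      {L | IsBisector Q L ∧ ¬ ∃ p ∈ A, p ∈ L} := by
    ext L
    simp only [Set.mem_ofPred_eq, Set.mem_union]
    constructor
    · intro h
      by_cases h2 : ∃ p ∈ A, p ∈ L
      · exact Or.inl ⟨h, h2⟩
      · exact Or.inr ⟨h, h2⟩
    · rintro (h | h)
      · exact h.1
      · exact h.1
  rw [h1]
  refine (Set.ncard_union_le _ _).trans (Nat.add_le_add_left ?_ _)
  have hex : ∀ L : Set (ℝ × ℝ), ∃ z : (ℝ × ℝ) × (ℝ × ℝ),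
      (IsBisector Q L ∧ ¬ ∃ p ∈ A, p ∈ L) →
      z.1 ∈ P ∧ z.2 ∈ P ∧ (shr ε z.1).1 < (shr ε z.2).1 ∧ Hv Q z.1 z.2 ∧
        L = {x | cr z.1 z.2 x = 0} := by
    intro L
    by_cases hL : IsBisector Q L ∧ ¬ ∃ p ∈ A, p ∈ L
    · obtain ⟨a, b, c, hab, hL2, ⟨p, hp, q, hq, hpq, hpL, hqL⟩, h1, h2⟩ := id hL.1
      have hpP : p ∈ P := by
        rw [hQ, mem_union] at hp
        exact hp.resolve_right fun h => hL.2 ⟨p, h, hpL⟩
      have hqP : q ∈ P := by
        rw [hQ, mem_union] at hq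
        exact hq.resolve_right fun h => hL.2 ⟨q, h, hqL⟩
      have hne : (shr ε p).1 ≠ (shr ε q).1 := fun h => hpq (hε p hpP q hqP h)
      rcases lt_or_gt_of_ne hne with h | h
      · obtain ⟨h3, h4⟩ := hv_of_line hL.1 hpq hpL hqL
        exact ⟨(p, q), fun _ => ⟨hpP, hqP, h, h3, h4⟩⟩
      · obtain ⟨h3, h4⟩ := hv_of_line hL.1 hpq.symm hqL hpL
        exact ⟨(q, p), fun _ => ⟨hqP, hpP, h, h3, h4⟩⟩
    · exact ⟨((0, 0), (0, 0)), fun h => absurd h hL⟩
  choose z hz using hex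
  have hfin : {L | IsBisector Q L ∧ ¬ ∃ p ∈ A, p ∈ L}.Finite := hf.subset fun L hL => hL.1
  rw [Set.ncard_eq_toFinset_card _ hfin]
  refine card_le_card_of_injOn z ?_ ?_
  · intro L hL
    rw [mem_coe, Set.Finite.mem_toFinset] at hL
    obtain ⟨h1, h2, h3, h4, h5⟩ := hz L hL
    rw [mem_coe, mem_filter, mem_TP]
    exact ⟨⟨h1, h2, h3⟩, h4⟩
  · intro L hL L' hL' h
    rw [mem_coe, Set.Finite.mem_toFinset] at hL hL'
    obtain ⟨h1, h2, h3, h4, h5⟩ := hz L hL
    obtain ⟨h1', h2', h3', h4', h5'⟩ := hz L' hL'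
    rw [h5, h5', h]

open scoped Classical in
/-- the window of levels -/
lemma window_le' {P : Finset (ℝ × ℝ)} (hP : Gen P) {ε : ℝ}
    (hε : ∀ x ∈ P, ∀ y ∈ P, (shr ε x).1 = (shr ε y).1 → x = y) {D : ℕ} (h2 : 2 ≤ #P)
    (hD : 2 * D ≤ #P) :
    (#{z ∈ TP ε P | neg P z ∈ Icc (#P / 2 - 1 - D) (#P / 2 - 1 + D)} : ℝ) ≤
      18 * #P * ((#P : ℝ) ^ (1 / 3 : ℝ) * (((2 * D + 1 : ℕ) : ℝ) ^ (1 / 3 : ℝ)) ^ 2) := by
  have h0 := band hP hε (Icc (#P / 2 - 1 - D) (#P / 2 - 1 + D))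
    (K := #P / 2 - 1 + D) (fun k hk => (mem_Icc.1 hk).2)
  refine h0.trans ?_
  have h1 : (((#P / 2 - 1 + D : ℕ) : ℝ) + 1) ^ (1 / 3 : ℝ) ≤ (#P : ℝ) ^ (1 / 3 : ℝ) := by
    apply Real.rpow_le_rpow (by positivity) _ (by norm_num)
    have : #P / 2 - 1 + D + 1 ≤ #P := by omega
    exact_mod_cast this
  have h3 : ((Icc (#P / 2 - 1 - D) (#P / 2 - 1 + D)).card : ℝ) ^ (2 / 3 : ℝ) ≤
      (((2 * D + 1 : ℕ) : ℝ) ^ (1 / 3 : ℝ)) ^ 2 := by
    have e1 : ((Icc (#P / 2 - 1 - D) (#P / 2 - 1 + D)).card : ℝ) ≤ ((2 * D + 1 : ℕ) : ℝ) := by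
      rw [Nat.card_Icc]
      have : #P / 2 - 1 + D + 1 - (#P / 2 - 1 - D) ≤ 2 * D + 1 := by omega
      exact_mod_cast this
    refine (Real.rpow_le_rpow (by positivity) e1 (by norm_num)).trans (le_of_eq ?_)
    rw [← Real.rpow_natCast, ← Real.rpow_mul (by positivity)]
    norm_num
  gcongr

/-- arithmetic -/
lemma arith' {b n δ M : ℝ} (hn : 0 < n) (hδ : 0 < δ) (hM : 0 < M) (hD : δ * n ≤ 2 * M)
    (h : M * b ≤ 18 * n * (n ^ (1 / 3 : ℝ) * (M ^ (1 / 3 : ℝ)) ^ 2)) :
    b ≤ 23 * n * (1 / δ) ^ (1 / 3 : ℝ) := by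
  have cube : ∀ x : ℝ, 0 ≤ x → (x ^ (1 / 3 : ℝ)) ^ 3 = x := by
    intro x hx
    rw [← Real.rpow_natCast, ← Real.rpow_mul hx]
    norm_num
  set t := M ^ (1 / 3 : ℝ) with ht
  set a := n ^ (1 / 3 : ℝ) with ha
  have ht0 : 0 < t := by positivity
  have ha0 : 0 < a := by positivity
  have hd0 : 0 < δ ^ (1 / 3 : ℝ) := by positivity
  have ht3 : t ^ 3 = M := cube _ hM.le
  have ha3 : a ^ 3 = n := cube _ hn.le
  have hd3 : (δ ^ (1 / 3 : ℝ)) ^ 3 = δ := cube _ hδ.le
  set d := δ ^ (1 / 3 : ℝ) with hd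
  have h1 : t * b ≤ 18 * n * a := by
    rw [← ht3] at h
    have h2 : t ^ 2 * (t * b) ≤ t ^ 2 * (18 * n * a) := by nlinarith
    exact le_of_mul_le_mul_left h2 (by positivity)
  have h2 : d * a ≤ (23 / 18) * t := by
    have h3 : (d * a) ^ 3 ≤ ((23 / 18) * t) ^ 3 := by
      rw [mul_pow, mul_pow, hd3, ha3, ht3]
      nlinarith
    exact le_of_pow_le_pow_left₀ (by norm_num) (by positivity) h3
  rcases le_or_gt b 0 with hb | hb
  · refine hb.trans ?_
    positivity
  have h4 : (d * b) * a ≤ (23 * n) * a := by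
    calc (d * b) * a = (d * a) * b := by ring
      _ ≤ ((23 / 18) * t) * b := mul_le_mul_of_nonneg_right h2 hb.le
      _ = (23 / 18) * (t * b) := by ring
      _ ≤ (23 / 18) * (18 * n * a) := by linarith
      _ = (23 * n) * a := by ring
  have h5 : d * b ≤ 23 * n := le_of_mul_le_mul_right h4 ha0
  rw [one_div, Real.inv_rpow hδ.le, ← hd, ← div_eq_mul_inv, le_div_iff₀ hd0]
  linarith

open scoped Classical in
/-- **adding few points destroys most halving lines** -/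
theorem few_additions {P : Finset (ℝ × ℝ)} (hP : Gen P) (hE : Even #P) {δ : ℝ} (h0 : 0 < δ)
    (h1 : δ ≤ 1) : ∃ Q, P ⊆ Q ∧ GeneralPosition Q ∧ Even #Q ∧ (#Q : ℝ) ≤ (1 + δ) * #P ∧
      ({L | IsBisector Q L}.ncard : ℝ) ≤ 39 * #P * (1 / δ) ^ (1 / 3 : ℝ) := by
  obtain ⟨r, hr⟩ := hE
  rcases Nat.eq_zero_or_pos #P with hn | hn
  · rw [card_eq_zero] at hn
    subst hn
    refine ⟨∅, Subset.rfl, gp_of_gen hP, by simp, by simp, ?_⟩
    have : {L | IsBisector (∅ : Finset (ℝ × ℝ)) L} = ∅ := by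
      ext L
      rw [Set.mem_empty_iff_false, iff_false]
      rintro ⟨a, b, c, -, -, ⟨p, hp, -⟩, -⟩
      exact notMem_empty p hp
    rw [this]
    simp
  obtain ⟨ε, hε⟩ := exists_shear P
  obtain ⟨T, hT⟩ := exists_far (P := P) ε
  set D : ℕ := ⌊δ * #P / 2⌋₊ with hD
  have hn0 : (0 : ℝ) < #P := by exact_mod_cast hn
  have hD1 : (D : ℝ) ≤ δ * #P / 2 := Nat.floor_le (by positivity)
  have hD2 : δ * #P / 2 < (D : ℝ) + 1 := Nat.lt_floor_add_one _
  have hDn : 2 * D ≤ #P := by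
    have : (2 * D : ℝ) ≤ #P := by nlinarith
    exact_mod_cast this
  -- the sets
  have hex : ∀ i : ℕ, ∃ A B : Finset (ℝ × ℝ), #A = i ∧ #B = 2 * D - i ∧
      Disjoint A P ∧ Disjoint B (P ∪ A) ∧
      (∀ a ∈ A, ∃ x ∈ Set.Icc (0 : ℝ) 1, a = par ε 1 T x) ∧
      (∀ a ∈ B, ∃ x ∈ Set.Icc (0 : ℝ) 1, a = par ε (-1) T x) ∧ Gen (P ∪ A ∪ B) := by
    intro i
    obtain ⟨A, hA1, hA2, hA3, hA4⟩ := add_pts hP (ε := ε) (σ := 1) (T := T) one_ne_zero i
    obtain ⟨B, hB1, hB2, hB3, hB4⟩ := add_pts hA4 (ε := ε) (σ := -1) (T := T)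
      (neg_ne_zero.2 one_ne_zero) (2 * D - i)
    exact ⟨A, B, hA1, hB1, hA2, hB2, hA3, hB3, hB4⟩
  choose A B hA hB hAP hBP hAp hBp hG using hex
  have hcard : ∀ i ≤ 2 * D, #(P ∪ A i ∪ B i) = #P + 2 * D := by
    intro i hi
    rw [card_union_of_disjoint (hBP i).symm, card_union_of_disjoint (hAP i).symm, hA, hB]
    omega
  -- the levels
  have hlev : ∀ i ≤ 2 * D, ∀ z ∈ TP ε P, Hv (P ∪ A i ∪ B i) z.1 z.2 →
      neg P z + (2 * D - i) = #P / 2 + D - 1 := by
    intro i hi z hz hv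
    have h2 := hv.2.2
    rw [hcard i hi] at h2
    have h3 : #{x ∈ P ∪ A i ∪ B i | cr z.1 z.2 x < 0} = neg P z + (2 * D - i) := by
      rw [filter_union, filter_union]
      have e1 : ({x ∈ A i | cr z.1 z.2 x < 0} : Finset (ℝ × ℝ)) = ∅ := by
        rw [filter_eq_empty_iff]
        intro x hx
        obtain ⟨u, hu, rfl⟩ := hAp i x hx
        exact not_lt.2 (hT z hz u hu).1.le
      have e2 : ({x ∈ B i | cr z.1 z.2 x < 0} : Finset (ℝ × ℝ)) = B i := by
        rw [filter_eq_self]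
        intro x hx
        obtain ⟨u, hu, rfl⟩ := hBp i x hx
        exact (hT z hz u hu).2
      rw [e1, e2, union_empty, card_union_of_disjoint, hB]
      · rfl
      · rw [disjoint_left]
        intro x hx hx'
        exact disjoint_left.1 (hBP i) hx' (mem_union_left _ (mem_filter.1 hx).1)
    rw [h3] at h2
    omega
  have hsum : ∑ i ∈ range (2 * D + 1), (2 * D + 1) * #{z ∈ TP ε P | Hv (P ∪ A i ∪ B i) z.1 z.2} ≤
      ∑ i ∈ range (2 * D + 1),
        #{z ∈ TP ε P | neg P z ∈ Icc (#P / 2 - 1 - D) (#P / 2 - 1 + D)} := by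
    rw [← mul_sum, sum_const, card_range, smul_eq_mul]
    apply Nat.mul_le_mul_left
    calc ∑ i ∈ range (2 * D + 1), #{z ∈ TP ε P | Hv (P ∪ A i ∪ B i) z.1 z.2} =
        ∑ z ∈ TP ε P, #{i ∈ range (2 * D + 1) | Hv (P ∪ A i ∪ B i) z.1 z.2} := by
          simp only [card_filter]
          exact sum_comm
      _ ≤ ∑ z ∈ TP ε P, if neg P z ∈ Icc (#P / 2 - 1 - D) (#P / 2 - 1 + D) then 1 else 0 := by
          apply sum_le_sum
          intro z hz
          have hone : #{i ∈ range (2 * D + 1) | Hv (P ∪ A i ∪ B i) z.1 z.2} ≤ 1 := by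
            rw [card_le_one]
            intro i hi j hj
            rw [mem_filter, mem_range] at hi hj
            have e1 := hlev i (by omega) z hz hi.2
            have e2 := hlev j (by omega) z hz hj.2
            omega
          split_ifs with hW
          · exact hone
          · rw [nonpos_iff_eq_zero, card_eq_zero, filter_eq_empty_iff]
            intro i hi hv
            rw [mem_range] at hi
            have e1 := hlev i (by omega) z hz hv
            apply hW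
            rw [mem_Icc]
            omega
      _ = _ := by rw [card_filter]
  obtain ⟨i, hi, h2⟩ := exists_le_of_sum_le ⟨0, mem_range.2 (by omega)⟩ hsum
  have hi' : i ≤ 2 * D := by
    have := mem_range.1 hi
    omega
  refine ⟨P ∪ A i ∪ B i, ?_, gp_of_gen (hG i), ?_, ?_, ?_⟩
  · intro x hx
    exact mem_union_left _ (mem_union_left _ hx)
  · rw [hcard i hi', Nat.even_iff]
    omega
  · rw [hcard i hi']
    push_cast
    linarith
  · have h3 : {L | IsBisector (P ∪ A i ∪ B i) L ∧ ∃ p ∈ A i ∪ B i, p ∈ L}.ncard ≤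
        4 * 2 * #(P ∪ A i ∪ B i) := by
      refine touch (hG i) ?_ (fun k : Fin 2 => if k = 0 then A i else B i) ?_ ?_
      · intro x hx
        rw [mem_union] at hx
        rcases hx with hx | hx
        · exact mem_union_left _ (mem_union_right _ hx)
        · exact mem_union_right _ hx
      · intro k
        split_ifs
        · exact par_convex (by norm_num) (hAp i)
        · exact par_convex (by norm_num) (hBp i)
      · intro p hp
        rw [mem_union] at hp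
        rcases hp with hp | hp
        · exact ⟨0, by simpa using hp⟩
        · exact ⟨1, by simpa using hp⟩
    have h4 := bis_add hε (Q := P ∪ A i ∪ B i) (A := A i ∪ B i) (by rw [union_assoc])
    rw [hcard i hi'] at h3
    have h5 := window_le' hP hε (D := D) (by omega) hDn
    set X := #{z ∈ TP ε P | Hv (P ∪ A i ∪ B i) z.1 z.2} with hX
    have h6 : ((2 * D + 1 : ℕ) : ℝ) * (X : ℝ) ≤
        (#{z ∈ TP ε P | neg P z ∈ Icc (#P / 2 - 1 - D) (#P / 2 - 1 + D)} : ℝ) := by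
      exact_mod_cast h2
    have h7 := arith' (b := (X : ℝ)) (n := (#P : ℝ)) (δ := δ) (M := ((2 * D + 1 : ℕ) : ℝ)) hn0 h0
      (by positivity) (by push_cast; linarith) (h6.trans h5)
    have h8 : ({L | IsBisector (P ∪ A i ∪ B i) L}.ncard : ℝ) ≤ 8 * (#P + 2 * D) + X := by
      have : {L | IsBisector (P ∪ A i ∪ B i) L}.ncard ≤ 8 * (#P + 2 * D) + X := by omega
      exact_mod_cast this
    have h9 : (1 : ℝ) ≤ (1 / δ) ^ (1 / 3 : ℝ) := by
      apply Real.one_le_rpow _ (by norm_num)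
      rw [le_div_iff₀ h0]
      linarith
    have h10 : (2 * D : ℝ) ≤ #P := by exact_mod_cast hDn
    nlinarith

end Pool.Agent.Q102.HL
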