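import Pool.Agent.Y344.KD.Sum
import Pool.Agent.Y344.KD.Pert
import Pool.Agent.Y429.HalvFew

set_option autoImplicit false

/-!
# Dey's bound for an arbitrary set of levels of a finite planar point set
-/

namespace Pool.Agent.Q102.HL

open Finset Pool.Agent.W296.HL Pool.Agent.Y429.HalvFew

open scoped Classical in
/-- the number of points of `P` on the negative side of the line of the pair `z` -/
noncomputable def neg (P : Finset (ℝ × ℝ)) (z : (ℝ × ℝ) × (ℝ × ℝ)) : ℕ :=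
  #{x ∈ P | cr z.1 z.2 x < 0}

open scoped Classical in
/-- the pairs of points of `P`, oriented from left to right after a shear -/
noncomputable def TP (ε : ℝ) (P : Finset (ℝ × ℝ)) : Finset ((ℝ × ℝ) × (ℝ × ℝ)) :=
  {z ∈ P ×ˢ P | (shr ε z.1).1 < (shr ε z.2).1}

open scoped Classical in
lemma mem_TP {ε : ℝ} {P : Finset (ℝ × ℝ)} {z : (ℝ × ℝ) × (ℝ × ℝ)} :
    z ∈ TP ε P ↔ z.1 ∈ P ∧ z.2 ∈ P ∧ (shr ε z.1).1 < (shr ε z.2).1 := by
  unfold TP
  rw [mem_filter, mem_product]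
  tauto

open scoped Classical in
/-- Dey's bound for the pairs whose level lies in a finite set -/
theorem band {P : Finset (ℝ × ℝ)} (hP : Gen P) {ε : ℝ}
    (hε : ∀ x ∈ P, ∀ y ∈ P, (shr ε x).1 = (shr ε y).1 → x = y) (W : Finset ℕ) {K : ℕ}
    (hW : ∀ k ∈ W, k ≤ K) :
    (#{z ∈ TP ε P | neg P z ∈ W} : ℝ) ≤
      18 * #P * (((K : ℝ) + 1) ^ (1 / 3 : ℝ) * (W.card : ℝ) ^ (2 / 3 : ℝ)) := by
  obtain ⟨n, hn⟩ : ∃ n, #P = n := ⟨_, rfl⟩
  rw [hn]
  let e : P ≃ Fin n := P.equivFinOfCardEq hn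
  let Q : Fin n → ℝ × ℝ := fun i => (e.symm i).1
  have hQP : ∀ i, Q i ∈ P := fun i => (e.symm i).2
  have hQe : ∀ (x : ℝ × ℝ) (hx : x ∈ P), Q (e ⟨x, hx⟩) = x := fun x hx => by
    show (e.symm (e ⟨x, hx⟩)).1 = x
    rw [Equiv.symm_apply_apply]
  have hQinj : Function.Injective Q := fun i j h => by
    have : e.symm i = e.symm j := Subtype.ext h
    exact e.symm.injective this
  let a : Fin n → ℝ := fun i => (shr ε (Q i)).1
  let B : Fin n → ℝ := fun i => (shr ε (Q i)).2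
  have hcr : ∀ i j l, (a j - a i) * (B l - B i) - (B j - B i) * (a l - a i) =
      cr (Q i) (Q j) (Q l) := by
    intro i j l
    have := cr_shr ε (Q i) (Q j) (Q l)
    rw [← this]
    rfl
  have hS : Pool.Agent.Results.MP_a08d0a_co.SmoothedLevel.Simple a B := by
    constructor
    · intro i j hij h _
      exact hij (hQinj (hε _ (hQP i) _ (hQP j) h))
    · rintro i j l hij hil hjl ⟨x, h1, h2⟩
      apply hP (Q i) (hQP i) (Q j) (hQP j) (Q l) (hQP l) (hQinj.ne hij) (hQinj.ne hil)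
        (hQinj.ne hjl)
      rw [← hcr]
      unfold Pool.Agent.H189R2.Lev.ht at h1 h2
      have e1 : B j - B i = -(x * (a j - a i)) := by linarith
      have e2 : B l - B i = -(x * (a l - a i)) := by linarith
      rw [e1, e2]
      ring
  obtain ⟨P2, hGP, hrel⟩ := Pool.Agent.Y344.KD.exists_GP hS
  have hwin := Pool.Agent.Y344.KD.window hGP W hW
  refine le_trans ?_ hwin
  rw [Nat.cast_le]
  have hneg : ∀ i j : Fin n, a j < a i → Pool.Agent.H189R2.Iid.lev P2 (i, j) =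
      neg P (Q j, Q i) := by
    intro i j hij
    unfold Pool.Agent.H189R2.Iid.lev neg
    have h0 : 0 < a i - a j := by linarith
    have hiff : ∀ l, P2 l ∈ Pool.Agent.H189R2.Iid.low (P2 i) (P2 j) ↔ cr (Q j) (Q i) (Q l) < 0 := by
      intro l
      rw [(hrel i j hij).2 l, ← hcr]
      unfold Pool.Agent.H189R2.Lev.ht Pool.Agent.H189R2.Lev.cr
      set x0 := (B j - B i) / (a i - a j) with hx0
      have hx : x0 * (a i - a j) = B j - B i := by rw [hx0]; field_simp
      have key : (a i - a j) * ((a l * x0 + B l) - (a i * x0 + B i)) =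
          (a i - a j) * (B l - B j) - (B i - B j) * (a l - a j) := by
        linear_combination (a l - a i) * hx
      constructor
      · intro h
        have : (a l * x0 + B l) - (a i * x0 + B i) < 0 := by linarith
        rw [← key]
        exact mul_neg_of_pos_of_neg h0 this
      · intro h
        rw [← key] at h
        by_contra hc
        push Not at hc
        have : 0 ≤ (a i - a j) * ((a l * x0 + B l) - (a i * x0 + B i)) :=
          mul_nonneg h0.le (by linarith)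
        linarith
    refine card_bij (fun l _ => Q l) ?_ ?_ ?_
    · intro l hl
      rw [mem_filter] at hl ⊢
      exact ⟨hQP l, (hiff l).1 hl.2⟩
    · intro l _ l' _ h
      exact hQinj h
    · intro x hx
      rw [mem_filter] at hx
      refine ⟨e ⟨x, hx.1⟩, ?_, hQe x hx.1⟩
      rw [mem_filter]
      refine ⟨mem_univ _, (hiff _).2 ?_⟩
      rw [hQe]
      exact hx.2
  have hsub : ({z ∈ TP ε P | neg P z ∈ W} : Finset _) ⊆
      (Pool.Agent.Y344.KD.EW P2 W).image fun q => (Q q.2, Q q.1) := by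
    intro z hz
    rw [mem_filter, mem_TP] at hz
    obtain ⟨⟨h1, h2, h3⟩, h4⟩ := hz
    rw [mem_image]
    refine ⟨(e ⟨z.2, h2⟩, e ⟨z.1, h1⟩), ?_, ?_⟩
    · have hlt : a (e ⟨z.1, h1⟩) < a (e ⟨z.2, h2⟩) := by
        show (shr ε (Q _)).1 < (shr ε (Q _)).1
        rw [hQe, hQe]
        exact h3
      unfold Pool.Agent.Y344.KD.EW
      rw [mem_filter, Pool.Agent.H189R2.Iid.mem_T]
      refine ⟨(hrel _ _ hlt).1, ?_⟩
      rw [hneg _ _ hlt, hQe, hQe]
      exact h4
    · show (Q _, Q _) = z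
      rw [hQe, hQe]
  exact (card_le_card hsub).trans card_image_le

open scoped Classical in
/-- weighted form -/
theorem weighted {P : Finset (ℝ × ℝ)} (hP : Gen P) {ε : ℝ}
    (hε : ∀ x ∈ P, ∀ y ∈ P, (shr ε x).1 = (shr ε y).1 → x = y) {w : ℕ → ℝ} {M s : ℝ} (hM : 0 < M)
    (hs : 0 < s) (hw0 : ∀ j, 0 ≤ w j) (hwM : ∀ j, w j ≤ M) (hw : ∑ j ∈ range #P, w j ≤ s) :
    ∑ z ∈ TP ε P, w (neg P z) ≤
      90 * #P * (#P : ℝ) ^ (1 / 3 : ℝ) * (M ^ (1 / 3 : ℝ) * s ^ (2 / 3 : ℝ)) := by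
  set E : ℕ → ℝ := fun j => (#{z ∈ TP ε P | neg P z = j} : ℝ) with hE
  have hlt : ∀ z ∈ TP ε P, neg P z ∈ range #P := by
    intro z hz
    rw [mem_range]
    have hz' := mem_TP.1 hz
    unfold neg
    apply card_lt_card
    rw [filter_ssubset]
    refine ⟨z.1, hz'.1, ?_⟩
    have : cr z.1 z.2 z.1 = 0 := by unfold cr; ring
    rw [this]
    exact lt_irrefl 0
  have h1 : ∑ z ∈ TP ε P, w (neg P z) = ∑ j ∈ range #P, E j * w j := by
    rw [← sum_fiberwise_of_maps_to hlt]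
    apply sum_congr rfl
    intro j _
    rw [hE]
    simp only
    rw [sum_congr rfl (g := fun _ => w j)]
    · rw [sum_const, nsmul_eq_mul]
    · intro z hz
      rw [(mem_filter.1 hz).2]
  have h2 : ∀ W ⊆ range #P, ∑ j ∈ W, E j ≤ 18 * #P * (#P : ℝ) ^ (1 / 3 : ℝ) *
      (W.card : ℝ) ^ (2 / 3 : ℝ) := by
    intro W hW
    rcases Nat.eq_zero_or_pos #P with h0 | h0
    · rw [h0, range_zero, subset_empty] at hW
      rw [hW, sum_empty]
      positivity
    have h3 : ∑ j ∈ W, E j = (#{z ∈ TP ε P | neg P z ∈ W} : ℝ) := by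
      have h4 := card_eq_sum_card_fiberwise (f := neg P) (s := {z ∈ TP ε P | neg P z ∈ W}) (t := W)
        (fun z hz => (mem_filter.1 hz).2)
      rw [h4]
      push_cast
      apply sum_congr rfl
      intro j hj
      rw [hE]
      simp only
      congr 2
      ext z
      simp only [mem_filter]
      constructor
      · rintro ⟨h5, h6⟩
        exact ⟨⟨h5, h6 ▸ hj⟩, h6⟩
      · rintro ⟨⟨h5, _⟩, h6⟩
        exact ⟨h5, h6⟩
    rw [h3]
    have h4 := band hP hε W (K := #P - 1) (fun k hk => by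
      have := mem_range.1 (hW hk)
      omega)
    have h5 : (((#P - 1 : ℕ) : ℝ) + 1) = #P := by
      rw [Nat.cast_sub (by omega)]
      push_cast
      ring
    rw [h5] at h4
    linarith
  rw [h1]
  set t : ℝ := 2 / s with ht
  have ht0 : 0 < t := by positivity
  have h6 := Pool.Agent.Y344.KD.layer (J := range #P) (e := E) (w := fun j => t * w j)
    (A := 18 * #P * (#P : ℝ) ^ (1 / 3 : ℝ)) (M := t * M) (by positivity) (by positivity) h2
    (fun j _ => mul_nonneg ht0.le (hw0 j)) (fun j _ => mul_le_mul_of_nonneg_left (hwM j) ht0.le) (by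
      rw [← mul_sum, ht, div_mul_eq_mul_div, div_le_iff₀ hs]
      linarith)
  have h7 : ∑ j ∈ range #P, E j * (t * w j) = t * ∑ j ∈ range #P, E j * w j := by
    rw [mul_sum]
    apply sum_congr rfl
    intro j _
    ring
  rw [h7] at h6
  have h8 : (t * M) ^ (1 / 3 : ℝ) = t * (M ^ (1 / 3 : ℝ) * (s / 2) ^ (2 / 3 : ℝ)) := by
    have e1 : t = (s / 2)⁻¹ := by rw [ht, inv_div]
    have hs2 : 0 < s / 2 := by positivity
    rw [Real.mul_rpow ht0.le hM.le]
    have e2 : t ^ (1 / 3 : ℝ) = t * (s / 2) ^ (2 / 3 : ℝ) := by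
      rw [e1, Real.inv_rpow hs2.le, ← Real.rpow_neg hs2.le, ← Real.rpow_neg_one,
        ← Real.rpow_add hs2]
      norm_num
    rw [e2]
    ring
  rw [h8] at h6
  have h9 : ∑ j ∈ range #P, E j * w j ≤
      5 * (18 * #P * (#P : ℝ) ^ (1 / 3 : ℝ)) * (M ^ (1 / 3 : ℝ) * (s / 2) ^ (2 / 3 : ℝ)) := by
    have e : 5 * (18 * (#P : ℝ) * (#P : ℝ) ^ (1 / 3 : ℝ)) *
        (t * (M ^ (1 / 3 : ℝ) * (s / 2) ^ (2 / 3 : ℝ))) =
        t * (5 * (18 * #P * (#P : ℝ) ^ (1 / 3 : ℝ)) * (M ^ (1 / 3 : ℝ) * (s / 2) ^ (2 / 3 : ℝ))) := by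
      ring
    rw [e] at h6
    exact le_of_mul_le_mul_left h6 ht0
  refine h9.trans ?_
  have h10 : (s / 2) ^ (2 / 3 : ℝ) ≤ s ^ (2 / 3 : ℝ) :=
    Real.rpow_le_rpow (by positivity) (by linarith) (by norm_num)
  have h11 : 5 * (18 * (#P : ℝ) * (#P : ℝ) ^ (1 / 3 : ℝ)) = 90 * #P * (#P : ℝ) ^ (1 / 3 : ℝ) := by ring
  rw [h11]
  gcongr

end Pool.Agent.Q102.HL
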