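import Mathlib

set_option autoImplicit false

/-!
# The probability that a random set is split evenly
-/

namespace Pool.Agent.Q102.HL

open Finset

lemma hockey (b : ℕ) : ∀ N : ℕ, ∑ j ∈ range N, j.choose b = N.choose (b + 1)
  | 0 => by simp
  | N + 1 => by
    rw [sum_range_succ, hockey b N, Nat.choose_succ_succ N b, add_comm]

/-- the Vandermonde convolution of the upper indices -/
lemma vander (N : ℕ) : ∀ a b : ℕ, ∑ j ∈ range (N + 1), j.choose a * (N - j).choose b =
    (N + 1).choose (a + b + 1) := by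
  induction N with
  | zero =>
    intro a b
    rcases a with - | a <;> rcases b with - | b <;> simp [Nat.choose]
  | succ N ih =>
    intro a b
    rcases a with - | a
    · have h1 : ∑ j ∈ range (N + 1 + 1), j.choose 0 * (N + 1 - j).choose b =
          ∑ j ∈ range (N + 1 + 1), j.choose b := by
        rw [← sum_range_reflect]
        apply sum_congr rfl
        intro j hj
        rw [mem_range] at hj
        rw [Nat.choose_zero_right, one_mul]
        congr 1
        omega
      rw [h1, zero_add, hockey]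
    · rw [sum_range_succ']
      have h2 : ∑ j ∈ range (N + 1), (j + 1).choose (a + 1) * (N + 1 - (j + 1)).choose b =
          ∑ j ∈ range (N + 1), j.choose a * (N - j).choose b +
          ∑ j ∈ range (N + 1), j.choose (a + 1) * (N - j).choose b := by
        rw [← sum_add_distrib]
        apply sum_congr rfl
        intro j _
        rw [Nat.choose_succ_succ, add_mul]
        congr 2 <;> congr 1 <;> omega
      rw [h2, ih, ih]
      simp only [Nat.choose_zero_succ, zero_mul, add_zero]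
      have h3 : a + 1 + b + 1 = (a + b + 1) + 1 := by ring
      rw [h3, Nat.choose_succ_succ (N + 1) (a + b + 1)]

/-- the central binomial coefficient from above -/
lemma cb_up (k : ℕ) : ((Nat.centralBinom k : ℝ)) ^ 2 * (3 * k + 1) ≤ 16 ^ k := by
  induction k with
  | zero => simp
  | succ k ih =>
    have h := Nat.succ_mul_centralBinom_succ k
    have h' : ((k : ℝ) + 1) * Nat.centralBinom (k + 1) = 2 * (2 * k + 1) * Nat.centralBinom k := by
      exact_mod_cast h
    set x : ℝ := (Nat.centralBinom k : ℝ)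
    set y : ℝ := (Nat.centralBinom (k + 1) : ℝ)
    push_cast
    have hk : (0 : ℝ) ≤ k := by positivity
    have h1 : ((k : ℝ) + 1) ^ 2 * (y ^ 2 * (3 * (k + 1) + 1)) ≤ (k + 1) ^ 2 * (16 * 16 ^ k) := by
      have e : ((k : ℝ) + 1) ^ 2 * (y ^ 2 * (3 * (k + 1) + 1)) =
          (2 * (2 * k + 1) * x) ^ 2 * (3 * (k + 1) + 1) := by
        rw [← h']; ring
      rw [e]
      have h2 : (2 * (2 * (k : ℝ) + 1) * x) ^ 2 * (3 * (k + 1) + 1) ≤
          16 * (k + 1) ^ 2 * (x ^ 2 * (3 * k + 1)) := by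
        have : 0 ≤ x ^ 2 * (4 * (k : ℝ)) := by positivity
        nlinarith
      nlinarith [sq_nonneg ((k : ℝ) + 1)]
    have e16 : (16 : ℝ) ^ (k + 1) = 16 * 16 ^ k := by ring
    rw [e16]
    exact le_of_mul_le_mul_left h1 (by positivity)

/-- the central binomial coefficient from below -/
lemma cb_low (k : ℕ) : (16 : ℝ) ^ k ≤ ((Nat.centralBinom k : ℝ)) ^ 2 * (4 * k + 1) := by
  induction k with
  | zero => simp
  | succ k ih =>
    have h := Nat.succ_mul_centralBinom_succ k
    have h' : ((k : ℝ) + 1) * Nat.centralBinom (k + 1) = 2 * (2 * k + 1) * Nat.centralBinom k := by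
      exact_mod_cast h
    set x : ℝ := (Nat.centralBinom k : ℝ)
    set y : ℝ := (Nat.centralBinom (k + 1) : ℝ)
    push_cast
    have hk : (0 : ℝ) ≤ k := by positivity
    have h1 : (k + 1) ^ 2 * (16 * 16 ^ k) ≤ ((k : ℝ) + 1) ^ 2 * (y ^ 2 * (4 * (k + 1) + 1)) := by
      have e : ((k : ℝ) + 1) ^ 2 * (y ^ 2 * (4 * (k + 1) + 1)) =
          (2 * (2 * k + 1) * x) ^ 2 * (4 * (k + 1) + 1) := by
        rw [← h']; ring
      rw [e]
      have h2 : 16 * (k + 1) ^ 2 * (x ^ 2 * (4 * k + 1)) ≤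
          (2 * (2 * (k : ℝ) + 1) * x) ^ 2 * (4 * (k + 1) + 1) := by
        have : 0 ≤ x ^ 2 := by positivity
        nlinarith
      nlinarith [sq_nonneg ((k : ℝ) + 1)]
    have e16 : (16 : ℝ) ^ (k + 1) = 16 * 16 ^ k := by ring
    rw [e16]
    exact le_of_mul_le_mul_left h1 (by positivity)

/-- the identity for an even split -/
lemma split_id (h b : ℕ) : (((h + b).choose h : ℝ)) ^ 2 * Nat.centralBinom (h + b) =
    ((2 * h + 2 * b).choose (2 * h) : ℝ) * (Nat.centralBinom h * Nat.centralBinom b) := by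
  have cb : ∀ k : ℕ, (Nat.centralBinom k : ℝ) = (2 * k).factorial / (k.factorial * k.factorial) := by
    intro k
    rw [Nat.centralBinom_eq_two_mul_choose, two_mul, Nat.cast_add_choose]
  rw [cb, cb, cb, Nat.cast_add_choose, Nat.cast_add_choose]
  have e : 2 * (h + b) = 2 * h + 2 * b := by ring
  rw [e]
  have h1 : ((h.factorial : ℕ) : ℝ) ≠ 0 := by positivity
  have h2 : ((b.factorial : ℕ) : ℝ) ≠ 0 := by positivity
  have h3 : (((h + b).factorial : ℕ) : ℝ) ≠ 0 := by positivity
  have h4 : (((2 * h).factorial : ℕ) : ℝ) ≠ 0 := by positivity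
  have h5 : (((2 * b).factorial : ℕ) : ℝ) ≠ 0 := by positivity
  field_simp

/-- the even split -/
lemma split_even (h b : ℕ) : (((h + b).choose h : ℝ)) ^ 2 ≤
    ((2 * h + 2 * b).choose (2 * h) : ℝ) *
      √((4 * (h + b) + 1) / ((3 * h + 1) * (3 * b + 1))) := by
  set x : ℝ := (Nat.centralBinom h : ℝ) with hx
  set y : ℝ := (Nat.centralBinom b : ℝ) with hy
  set z : ℝ := (Nat.centralBinom (h + b) : ℝ) with hz
  have hz0 : 0 < z := by
    rw [hz]
    exact_mod_cast Nat.centralBinom_pos _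
  have hx0 : 0 < x := by
    rw [hx]
    exact_mod_cast Nat.centralBinom_pos _
  have hy0 : 0 < y := by
    rw [hy]
    exact_mod_cast Nat.centralBinom_pos _
  have h1 := cb_up h
  have h2 := cb_up b
  have h3 := cb_low (h + b)
  rw [← hx] at h1
  rw [← hy] at h2
  rw [← hz] at h3
  push_cast at h3
  have h4 := split_id h b
  rw [← hx, ← hy, ← hz] at h4
  have h5 : (((h + b).choose h : ℝ)) ^ 2 =
      ((2 * h + 2 * b).choose (2 * h) : ℝ) * (x * y / z) := by
    rw [← mul_div_assoc, ← h4]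
    field_simp
  rw [h5]
  apply mul_le_mul_of_nonneg_left _ (by positivity)
  apply Real.le_sqrt_of_sq_le
  rw [div_pow, div_le_div_iff₀ (by positivity) (by positivity)]
  have h6 : (x ^ 2 * (3 * h + 1)) * (y ^ 2 * (3 * b + 1)) ≤ 16 ^ h * 16 ^ b :=
    mul_le_mul h1 h2 (by positivity) (by positivity)
  rw [← pow_add] at h6
  calc (x * y) ^ 2 * ((3 * (h : ℝ) + 1) * (3 * b + 1)) =
      (x ^ 2 * (3 * h + 1)) * (y ^ 2 * (3 * b + 1)) := by ring
    _ ≤ 16 ^ (h + b) := h6
    _ ≤ _ := h3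
    _ = _ := by ring

/-- the odd split -/
lemma split_odd (h b : ℕ) : ((h + b).choose h : ℝ) * ((h + b + 1).choose h : ℝ) ≤
    ((2 * h + 2 * b + 1).choose (2 * h) : ℝ) *
      √((4 * (h + (b + 1)) + 1) / ((3 * h + 1) * (3 * (b + 1) + 1))) := by
  have h1 := Nat.choose_mul_succ_eq (h + b) h
  have h1' : ((h + b).choose h : ℝ) * (h + b + 1) = ((h + b + 1).choose h : ℝ) * (b + 1) := by
    have e : h + b + 1 - h = b + 1 := by omega
    rw [e] at h1
    exact_mod_cast h1
  have h2 := Nat.choose_mul_succ_eq (2 * h + 2 * b + 1) (2 * h)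
  have h2' : ((2 * h + 2 * b + 1).choose (2 * h) : ℝ) * (2 * h + 2 * b + 2) =
      ((2 * h + 2 * b + 2).choose (2 * h) : ℝ) * (2 * b + 2) := by
    have e : 2 * h + 2 * b + 1 + 1 - 2 * h = 2 * b + 2 := by omega
    rw [e] at h2
    exact_mod_cast h2
  have h3 := split_even h (b + 1)
  have e3 : 2 * h + 2 * (b + 1) = 2 * h + 2 * b + 2 := by ring
  have e4 : h + (b + 1) = h + b + 1 := by ring
  rw [e3, e4] at h3
  push_cast at h3
  set r : ℝ := √((4 * ((h : ℝ) + (b + 1)) + 1) / ((3 * h + 1) * (3 * (b + 1) + 1)))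
  set A : ℝ := ((h + b).choose h : ℝ)
  set B : ℝ := ((h + b + 1).choose h : ℝ)
  set Y : ℝ := ((2 * h + 2 * b + 1).choose (2 * h) : ℝ)
  set Z : ℝ := ((2 * h + 2 * b + 2).choose (2 * h) : ℝ)
  have h4 : (A * B) * (h + b + 1) ≤ (Y * r) * (h + b + 1) := by
    calc (A * B) * ((h : ℝ) + b + 1) = (A * (h + b + 1)) * B := by ring
      _ = B ^ 2 * (b + 1) := by rw [h1']; ring
      _ ≤ Z * r * (b + 1) := by gcongr
      _ = (Z * (2 * b + 2)) * r / 2 := by ring
      _ = (Y * r) * (h + b + 1) := by rw [← h2']; ring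
  exact le_of_mul_le_mul_right h4 (by positivity)

/-- the product of two binomial coefficients is largest when the upper indices are balanced -/
lemma prod_le {j k a b h : ℕ} (hs : j + k = a + b) (h1 : a ≤ b) (h2 : b ≤ a + 1) :
    j.choose h * k.choose h ≤ a.choose h * b.choose h := by
  have key : j.descFactorial h * k.descFactorial h ≤ a.descFactorial h * b.descFactorial h := by
    rw [Nat.descFactorial_eq_prod_range, Nat.descFactorial_eq_prod_range,
      Nat.descFactorial_eq_prod_range, Nat.descFactorial_eq_prod_range, ← prod_mul_distrib,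
      ← prod_mul_distrib]
    apply prod_le_prod'
    intro i _
    rcases Nat.lt_or_ge j i with hj | hj
    · rw [Nat.sub_eq_zero_of_le hj.le, zero_mul]
      exact Nat.zero_le _
    rcases Nat.lt_or_ge k i with hk | hk
    · rw [Nat.sub_eq_zero_of_le hk.le, mul_zero]
      exact Nat.zero_le _
    obtain ⟨j', rfl⟩ := Nat.exists_eq_add_of_le hj
    obtain ⟨k', rfl⟩ := Nat.exists_eq_add_of_le hk
    have ha : i ≤ a := by omega
    have hb : i ≤ b := by omega
    obtain ⟨a', rfl⟩ := Nat.exists_eq_add_of_le ha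
    obtain ⟨b', rfl⟩ := Nat.exists_eq_add_of_le hb
    simp only [Nat.add_sub_cancel_left]
    have hs' : j' + k' = a' + b' := by omega
    rcases Nat.lt_or_ge a' b' with h3 | h3
    · have h4 : b' = a' + 1 := by omega
      subst h4
      rcases Nat.lt_or_ge a' j' with h5 | h5
      · obtain ⟨c, rfl⟩ := Nat.exists_eq_add_of_lt h5
        have : k' + c = a' := by omega
        nlinarith
      · obtain ⟨c, rfl⟩ := Nat.exists_eq_add_of_le h5
        have : k' = j' + c + c + 1 := by omega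
        subst this
        nlinarith
    · have h4 : b' = a' := by omega
      subst h4
      nlinarith [sq_nonneg ((j' : ℤ) - k'), four_mul_le_sq_add j' k']
  rw [Nat.descFactorial_eq_factorial_mul_choose, Nat.descFactorial_eq_factorial_mul_choose,
    Nat.descFactorial_eq_factorial_mul_choose, Nat.descFactorial_eq_factorial_mul_choose] at key
  have hf : 0 < h.factorial * h.factorial := by positivity
  apply Nat.le_of_mul_le_mul_left _ hf
  calc h.factorial * h.factorial * (j.choose h * k.choose h) =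
      h.factorial * j.choose h * (h.factorial * k.choose h) := by ring
    _ ≤ _ := key
    _ = _ := by ring

/-- the weight of the level `j`: the probability that a random set of `2 h + 2` points of a set of
`N + 2` points contains a given pair of points and is split evenly by it -/
noncomputable def wt (N h j : ℕ) : ℝ :=
  if j ≤ N then ((j.choose h * (N - j).choose h : ℕ) : ℝ) / ((N + 2).choose (2 * h + 2) : ℝ) else 0

lemma wt_nonneg (N h j : ℕ) : 0 ≤ wt N h j := by
  unfold wt
  split_ifs <;> positivity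

lemma choose_two {N h : ℕ} :
    ((N + 2).choose (2 * h + 2) : ℝ) * ((2 * h + 2) * (2 * h + 1)) =
      (N.choose (2 * h) : ℝ) * ((N + 2) * (N + 1)) := by
  have h1 := Nat.add_one_mul_choose_eq (N + 1) (2 * h + 1)
  have h2 := Nat.add_one_mul_choose_eq N (2 * h)
  have h1' : ((N : ℝ) + 2) * ((N + 1).choose (2 * h + 1) : ℝ) =
      ((N + 2).choose (2 * h + 2) : ℝ) * (2 * h + 2) := by
    exact_mod_cast h1
  have h2' : ((N : ℝ) + 1) * (N.choose (2 * h) : ℝ) =
      ((N + 1).choose (2 * h + 1) : ℝ) * (2 * h + 1) := by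
    exact_mod_cast h2
  calc _ = ((N + 2).choose (2 * h + 2) : ℝ) * (2 * h + 2) * (2 * h + 1) := by ring
    _ = ((N : ℝ) + 2) * (((N + 1).choose (2 * h + 1) : ℝ) * (2 * h + 1)) := by rw [← h1']; ring
    _ = _ := by rw [← h2']; ring

/-- the sum of the weights -/
lemma wt_sum {N h : ℕ} (hN : 2 * h ≤ N) :
    ∑ j ∈ range (N + 2), wt N h j = ((2 * h + 2 : ℕ) : ℝ) / ((N + 2 : ℕ) : ℝ) := by
  rw [sum_range_succ]
  have h0 : wt N h (N + 1) = 0 := by
    unfold wt
    rw [if_neg (by omega)]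
  rw [h0, add_zero]
  have h1 : ∑ j ∈ range (N + 1), wt N h j =
      ((∑ j ∈ range (N + 1), j.choose h * (N - j).choose h : ℕ) : ℝ) /
        ((N + 2).choose (2 * h + 2) : ℝ) := by
    rw [Nat.cast_sum, sum_div]
    apply sum_congr rfl
    intro j hj
    rw [mem_range] at hj
    unfold wt
    rw [if_pos (by omega)]
  rw [h1, vander]
  have h2 : h + h + 1 = 2 * h + 1 := by ring
  rw [h2]
  have h3 := Nat.add_one_mul_choose_eq (N + 1) (2 * h + 1)
  have h3' : ((N + 2 : ℕ) : ℝ) * ((N + 1).choose (2 * h + 1) : ℝ) =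
      ((N + 2).choose (2 * h + 2) : ℝ) * ((2 * h + 2 : ℕ) : ℝ) := by
    exact_mod_cast h3
  have h4 : (0 : ℝ) < ((N + 2).choose (2 * h + 2) : ℝ) := by
    exact_mod_cast Nat.choose_pos (by omega)
  rw [div_eq_div_iff h4.ne' (by positivity)]
  linarith

/-- a bound for each weight -/
lemma wt_le {N h : ℕ} (hN : 2 * h ≤ N) (j : ℕ) : wt N h j ≤
    2 * (((2 * h + 2 : ℕ) : ℝ) / ((N + 2 : ℕ) : ℝ)) ^ 2 *
      √(((N + 2 : ℕ) : ℝ) / (((2 * h + 2 : ℕ) : ℝ) * ((N - 2 * h + 1 : ℕ) : ℝ))) := by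
  unfold wt
  split_ifs with hj
  swap
  · positivity
  obtain ⟨t, rfl⟩ := Nat.exists_eq_add_of_le hN
  have ht : 2 * h + t - 2 * h = t := by omega
  rw [ht]
  rcases Nat.even_or_odd' t with ⟨b, rfl | rfl⟩
  · -- the even case
    have h1 := prod_le (j := j) (k := 2 * h + 2 * b - j) (a := h + b) (b := h + b) (h := h)
      (by omega) le_rfl (by omega)
    have h2 := split_even h b
    have h3 := choose_two (N := 2 * h + 2 * b) (h := h)
    set X : ℝ := ((2 * h + 2 * b + 2).choose (2 * h + 2) : ℝ) with hX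
    set Y : ℝ := ((2 * h + 2 * b).choose (2 * h) : ℝ) with hY
    have hX0 : 0 < X := by
      rw [hX]
      exact_mod_cast Nat.choose_pos (by omega)
    have h4 : ((j.choose h * (2 * h + 2 * b - j).choose h : ℕ) : ℝ) ≤
        Y * √((4 * (h + b) + 1) / ((3 * h + 1) * (3 * b + 1))) := by
      refine le_trans ?_ h2
      rw [sq]
      exact_mod_cast h1
    rw [div_le_iff₀ hX0]
    refine h4.trans ?_
    push_cast at h3 ⊢
    have h5 : Y = X * ((2 * h + 2) * (2 * h + 1)) / ((2 * h + 2 * b + 2) * (2 * h + 2 * b + 1)) := by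
      rw [h3]; field_simp
    have h6 : √((4 * ((h : ℝ) + b) + 1) / ((3 * h + 1) * (3 * b + 1))) ≤
        2 * √((2 * h + 2 * b + 2) / ((2 * h + 2) * (2 * b + 1))) := by
      rw [show (2 : ℝ) = √4 by rw [show (4 : ℝ) = 2 ^ 2 by norm_num, Real.sqrt_sq (by norm_num)]]
      rw [← Real.sqrt_mul (by norm_num)]
      apply Real.sqrt_le_sqrt
      rw [show √(4 : ℝ) = 2 by rw [show (4 : ℝ) = 2 ^ 2 by norm_num, Real.sqrt_sq (by norm_num)]]
      rw [← mul_div_assoc, div_le_div_iff₀ (by positivity) (by positivity)]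
      have hh : (0 : ℝ) ≤ h := by positivity
      have hb : (0 : ℝ) ≤ b := by positivity
      have e1 : (4 * ((h : ℝ) + b) + 1) ≤ 2 * (2 * h + 2 * b + 2) := by linarith
      have e2 : (2 * (h : ℝ) + 2) * (2 * b + 1) ≤ 2 * ((3 * h + 1) * (3 * b + 1)) := by
        nlinarith [mul_nonneg hh hb]
      calc (4 * ((h : ℝ) + b) + 1) * ((2 * h + 2) * (2 * b + 1)) ≤
          (2 * (2 * h + 2 * b + 2)) * (2 * ((3 * h + 1) * (3 * b + 1))) := by
            apply mul_le_mul e1 e2 (by positivity) (by positivity)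
        _ = _ := by ring
    have h7 : ((2 * (h : ℝ) + 2) * (2 * h + 1)) / ((2 * h + 2 * b + 2) * (2 * h + 2 * b + 1)) ≤
        ((2 * h + 2) / (2 * h + 2 * b + 2)) ^ 2 := by
      rw [div_pow, div_le_div_iff₀ (by positivity) (by positivity)]
      have hh : (0 : ℝ) ≤ h := by positivity
      have hb : (0 : ℝ) ≤ b := by positivity
      have : (2 * (h : ℝ) + 1) * (2 * h + 2 * b + 2) ≤ (2 * h + 2) * (2 * h + 2 * b + 1) := by
        nlinarith
      have h8 : (0 : ℝ) ≤ (2 * h + 2) * (2 * h + 2 * b + 2) := by positivity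
      nlinarith [mul_le_mul_of_nonneg_left this h8]
    rw [h5, mul_div_assoc]
    calc X * (((2 * (h : ℝ) + 2) * (2 * h + 1)) / ((2 * h + 2 * b + 2) * (2 * h + 2 * b + 1))) *
          √((4 * ((h : ℝ) + b) + 1) / ((3 * h + 1) * (3 * b + 1))) ≤
        X * ((2 * h + 2) / (2 * h + 2 * b + 2)) ^ 2 *
          (2 * √((2 * h + 2 * b + 2) / ((2 * h + 2) * (2 * b + 1)))) := by
          gcongr
      _ ≤ _ := by
          have : 0 ≤ X * ((2 * (h : ℝ) + 2) / (2 * h + 2 * b + 2)) ^ 2 *
            √((2 * h + 2 * b + 2) / ((2 * h + 2) * (2 * b + 1))) := by positivity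
          nlinarith
  · -- the odd case
    have h1 := prod_le (j := j) (k := 2 * h + (2 * b + 1) - j) (a := h + b) (b := h + b + 1)
      (h := h) (by omega) (by omega) le_rfl
    have h2 := split_odd h b
    have h3 := choose_two (N := 2 * h + (2 * b + 1)) (h := h)
    have e0 : 2 * h + (2 * b + 1) = 2 * h + 2 * b + 1 := by ring
    rw [e0] at h1 h3 ⊢
    set X : ℝ := ((2 * h + 2 * b + 1 + 2).choose (2 * h + 2) : ℝ) with hX
    set Y : ℝ := ((2 * h + 2 * b + 1).choose (2 * h) : ℝ) with hY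
    have hX0 : 0 < X := by
      rw [hX]
      exact_mod_cast Nat.choose_pos (by omega)
    have h4 : ((j.choose h * (2 * h + 2 * b + 1 - j).choose h : ℕ) : ℝ) ≤
        Y * √((4 * (h + (b + 1)) + 1) / ((3 * h + 1) * (3 * (b + 1) + 1))) := by
      refine le_trans ?_ h2
      exact_mod_cast h1
    rw [div_le_iff₀ hX0]
    refine h4.trans ?_
    push_cast at h3 ⊢
    have h5 : Y = X * ((2 * h + 2) * (2 * h + 1)) /
        ((2 * h + 2 * b + 1 + 2) * (2 * h + 2 * b + 1 + 1)) := by
      rw [h3]; field_simp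
    have h6 : √((4 * ((h : ℝ) + (b + 1)) + 1) / ((3 * h + 1) * (3 * (b + 1) + 1))) ≤
        2 * √((2 * h + 2 * b + 1 + 2) / ((2 * h + 2) * (2 * b + 1 + 1))) := by
      rw [show (2 : ℝ) = √4 by rw [show (4 : ℝ) = 2 ^ 2 by norm_num, Real.sqrt_sq (by norm_num)]]
      rw [← Real.sqrt_mul (by norm_num)]
      apply Real.sqrt_le_sqrt
      rw [show √(4 : ℝ) = 2 by rw [show (4 : ℝ) = 2 ^ 2 by norm_num, Real.sqrt_sq (by norm_num)]]
      rw [← mul_div_assoc, div_le_div_iff₀ (by positivity) (by positivity)]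
      have hh : (0 : ℝ) ≤ h := by positivity
      have hb : (0 : ℝ) ≤ b := by positivity
      have e1 : (4 * ((h : ℝ) + (b + 1)) + 1) ≤ 2 * (2 * h + 2 * b + 1 + 2) := by linarith
      have e2 : (2 * (h : ℝ) + 2) * (2 * b + 1 + 1) ≤ 2 * ((3 * h + 1) * (3 * (b + 1) + 1)) := by
        nlinarith [mul_nonneg hh hb]
      calc (4 * ((h : ℝ) + (b + 1)) + 1) * ((2 * h + 2) * (2 * b + 1 + 1)) ≤
          (2 * (2 * h + 2 * b + 1 + 2)) * (2 * ((3 * h + 1) * (3 * (b + 1) + 1))) := by
            apply mul_le_mul e1 e2 (by positivity) (by positivity)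
        _ = _ := by ring
    have h7 : ((2 * (h : ℝ) + 2) * (2 * h + 1)) /
        ((2 * h + 2 * b + 1 + 2) * (2 * h + 2 * b + 1 + 1)) ≤
        ((2 * h + 2) / (2 * h + 2 * b + 1 + 2)) ^ 2 := by
      rw [div_pow, div_le_div_iff₀ (by positivity) (by positivity)]
      have hh : (0 : ℝ) ≤ h := by positivity
      have hb : (0 : ℝ) ≤ b := by positivity
      have : (2 * (h : ℝ) + 1) * (2 * h + 2 * b + 1 + 2) ≤ (2 * h + 2) * (2 * h + 2 * b + 1 + 1) := by
        nlinarith
      have h8 : (0 : ℝ) ≤ (2 * h + 2) * (2 * h + 2 * b + 1 + 2) := by positivity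
      nlinarith [mul_le_mul_of_nonneg_left this h8]
    rw [h5, mul_div_assoc]
    calc X * (((2 * (h : ℝ) + 2) * (2 * h + 1)) /
            ((2 * h + 2 * b + 1 + 2) * (2 * h + 2 * b + 1 + 1))) *
          √((4 * ((h : ℝ) + (b + 1)) + 1) / ((3 * h + 1) * (3 * (b + 1) + 1))) ≤
        X * ((2 * h + 2) / (2 * h + 2 * b + 1 + 2)) ^ 2 *
          (2 * √((2 * h + 2 * b + 1 + 2) / ((2 * h + 2) * (2 * b + 1 + 1)))) := by
          gcongr
      _ ≤ _ := by
          have : 0 ≤ X * ((2 * (h : ℝ) + 2) / (2 * h + 2 * b + 1 + 2)) ^ 2 *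
            √((2 * h + 2 * b + 1 + 2) / ((2 * h + 2) * (2 * b + 1 + 1))) := by positivity
          nlinarith

end Pool.Agent.Q102.HL
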