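import Pool.Agent.Q102.HL.Band
import Pool.Agent.Q102.HL.Hyp

set_option autoImplicit false

/-!
# Halving lines of the subsets of a planar point set
-/

namespace Pool.Agent.Q102.HL

open Finset Pool.Agent.W296.HL Pool.Agent.Y429.HalvFew

open scoped Classical in
/-- the bisectors of a subset inject into the oriented pairs -/
lemma bis_le' {P R : Finset (ℝ × ℝ)} (hR : R ⊆ P) {ε : ℝ}
    (hε : ∀ x ∈ P, ∀ y ∈ P, (shr ε x).1 = (shr ε y).1 → x = y) :
    {L | IsBisector R L}.ncard ≤ #{z ∈ TP ε P | z.1 ∈ R ∧ z.2 ∈ R ∧ Hv R z.1 z.2} := by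
  have hex : ∀ L : Set (ℝ × ℝ), ∃ z : (ℝ × ℝ) × (ℝ × ℝ), IsBisector R L →
      z.1 ∈ R ∧ z.2 ∈ R ∧ (shr ε z.1).1 < (shr ε z.2).1 ∧ Hv R z.1 z.2 ∧
        L = {x | cr z.1 z.2 x = 0} := by
    intro L
    by_cases hL : IsBisector R L
    · obtain ⟨a, b, c, hab, hL2, ⟨p, hp, q, hq, hpq, hpL, hqL⟩, h1, h2⟩ := id hL
      have hne : (shr ε p).1 ≠ (shr ε q).1 := fun h => hpq (hε p (hR hp) q (hR hq) h)
      rcases lt_or_gt_of_ne hne with h | h
      · obtain ⟨h3, h4⟩ := hv_of_line hL hpq hpL hqL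
        exact ⟨(p, q), fun _ => ⟨hp, hq, h, h3, h4⟩⟩
      · obtain ⟨h3, h4⟩ := hv_of_line hL hpq.symm hqL hpL
        exact ⟨(q, p), fun _ => ⟨hq, hp, h, h3, h4⟩⟩
    · exact ⟨((0, 0), (0, 0)), fun h => absurd h hL⟩
  choose z hz using hex
  rw [Set.ncard_eq_toFinset_card _ (bis_finite R)]
  refine card_le_card_of_injOn z ?_ ?_
  · intro L hL
    rw [mem_coe, Set.Finite.mem_toFinset] at hL
    obtain ⟨h1, h2, h3, h4, h5⟩ := hz L hL
    rw [mem_coe, mem_filter, mem_TP]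
    exact ⟨⟨hR h1, hR h2, h3⟩, h1, h2, h4⟩
  · intro L hL L' hL' h
    rw [mem_coe, Set.Finite.mem_toFinset] at hL hL'
    obtain ⟨h1, h2, h3, h4, h5⟩ := hz L hL
    obtain ⟨h1', h2', h3', h4', h5'⟩ := hz L' hL'
    rw [h5, h5', h]

open scoped Classical in
/-- the sets split evenly by a pair -/
lemma split_card {P : Finset (ℝ × ℝ)} (hP : Gen P) {z : (ℝ × ℝ) × (ℝ × ℝ)} (h1 : z.1 ∈ P)
    (h2 : z.2 ∈ P) (hne : z.1 ≠ z.2) (h : ℕ) :
    #{R ∈ powersetCard (2 * h + 2) P | z.1 ∈ R ∧ z.2 ∈ R ∧ Hv R z.1 z.2} ≤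
      (neg P z).choose h * (#P - 2 - neg P z).choose h := by
  have h3 := card3 hP h1 h2 hne
  have hpos : #{x ∈ P | 0 < cr z.1 z.2 x} = #P - 2 - neg P z := by
    unfold neg
    omega
  rw [← hpos]
  unfold neg
  rw [← card_powersetCard, ← card_powersetCard, ← card_product]
  refine card_le_card_of_injOn (fun R => ({x ∈ R | cr z.1 z.2 x < 0}, {x ∈ R | 0 < cr z.1 z.2 x}))
    ?_ ?_
  · intro R hR
    rw [mem_coe, mem_filter, mem_powersetCard] at hR
    obtain ⟨⟨hRP, hRc⟩, hz1, hz2, hv⟩ := hR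
    rw [mem_coe, mem_product, mem_powersetCard, mem_powersetCard]
    obtain ⟨-, hv1, hv2⟩ := hv
    refine ⟨⟨filter_subset_filter _ hRP, ?_⟩, filter_subset_filter _ hRP, ?_⟩
    · simp only
      rw [hv2]
      omega
    · simp only
      rw [hv1]
      omega
  · intro R hR R' hR' he
    rw [mem_coe, mem_filter, mem_powersetCard] at hR hR'
    simp only [Prod.mk.injEq] at he
    have key : ∀ R R' : Finset (ℝ × ℝ), R ⊆ P → z.1 ∈ R' → z.2 ∈ R' →
        ({x ∈ R | cr z.1 z.2 x < 0} : Finset (ℝ × ℝ)) = {x ∈ R' | cr z.1 z.2 x < 0} →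
        ({x ∈ R | 0 < cr z.1 z.2 x} : Finset (ℝ × ℝ)) = {x ∈ R' | 0 < cr z.1 z.2 x} →
        R ⊆ R' := by
      intro R R' hRP a1 a2 e1 e2 x hx
      by_cases b1 : x = z.1
      · rw [b1]; exact a1
      by_cases b2 : x = z.2
      · rw [b2]; exact a2
      rcases lt_or_gt_of_ne (hP z.1 h1 z.2 h2 x (hRP hx) hne (Ne.symm b1) (Ne.symm b2)) with c | c
      · have : x ∈ ({x ∈ R | cr z.1 z.2 x < 0} : Finset (ℝ × ℝ)) := mem_filter.2 ⟨hx, c⟩
        rw [e1] at this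
        exact (mem_filter.1 this).1
      · have : x ∈ ({x ∈ R | 0 < cr z.1 z.2 x} : Finset (ℝ × ℝ)) := mem_filter.2 ⟨hx, c⟩
        rw [e2] at this
        exact (mem_filter.1 this).1
    exact Subset.antisymm (key R R' hR.1.1 hR'.2.1 hR'.2.2.1 he.1 he.2)
      (key R' R hR'.1.1 hR.2.1 hR.2.2.1 he.1.symm he.2.symm)

lemma final_eq {n m t : ℝ} (hn : 0 < n) (hm : 0 < m) (ht : 0 < t) :
    90 * n * n ^ (1 / 3 : ℝ) *
      ((2 * (m / n) ^ 2 * √(n / (m * t))) ^ (1 / 3 : ℝ) * (m / n) ^ (2 / 3 : ℝ)) =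
      90 * 2 ^ (1 / 3 : ℝ) * (m ^ (7 / 6 : ℝ) * (n / t) ^ (1 / 6 : ℝ)) := by
  have e1 : 0 < 90 * n * n ^ (1 / 3 : ℝ) *
      ((2 * (m / n) ^ 2 * √(n / (m * t))) ^ (1 / 3 : ℝ) * (m / n) ^ (2 / 3 : ℝ)) := by positivity
  have e2 : 0 < 90 * 2 ^ (1 / 3 : ℝ) * (m ^ (7 / 6 : ℝ) * (n / t) ^ (1 / 6 : ℝ)) := by positivity
  rw [← Real.exp_log e1, ← Real.exp_log e2]
  congr 1
  have hn0 := hn.ne'
  have hm0 := hm.ne'
  have ht0 := ht.ne'
  rw [Real.log_mul (by positivity) (by positivity), Real.log_mul (by positivity) (by positivity),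
    Real.log_mul (by positivity) (by positivity), Real.log_mul (by positivity) (by positivity),
    Real.log_rpow hn, Real.log_rpow (by positivity), Real.log_mul (by positivity) (by positivity),
    Real.log_mul (by positivity) (by positivity), Real.log_pow, Real.log_div hm0 hn0,
    Real.log_sqrt (by positivity), Real.log_div hn0 (by positivity), Real.log_mul hm0 ht0,
    Real.log_rpow (by positivity), Real.log_div hm0 hn0,
    Real.log_mul (by positivity) (by positivity), Real.log_mul (by positivity) (by positivity),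
    Real.log_mul (by positivity) (by positivity), Real.log_rpow (by norm_num), Real.log_rpow hm,
    Real.log_rpow (by positivity), Real.log_div hn0 ht0]
  push_cast
  ring

open scoped Classical in
/-- **halving lines of the subsets of a planar point set** -/
theorem subsets {P : Finset (ℝ × ℝ)} (hP : Gen P) {h : ℕ} (hm : 2 * h + 2 ≤ #P) :
    ((∑ R ∈ powersetCard (2 * h + 2) P, {L | IsBisector R L}.ncard : ℕ) : ℝ) ≤
      90 * 2 ^ (1 / 3 : ℝ) * (((2 * h + 2 : ℕ) : ℝ) ^ (7 / 6 : ℝ) *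
        ((#P : ℝ) / ((#P - (2 * h + 2) + 1 : ℕ) : ℝ)) ^ (1 / 6 : ℝ)) *
          ((#P).choose (2 * h + 2) : ℝ) := by
  obtain ⟨ε, hε⟩ := exists_shear P
  obtain ⟨N, hN⟩ : ∃ N, #P = N + 2 := ⟨#P - 2, by omega⟩
  have hNh : 2 * h ≤ N := by omega
  have h1 : ∑ R ∈ powersetCard (2 * h + 2) P, {L | IsBisector R L}.ncard ≤
      ∑ z ∈ TP ε P, (neg P z).choose h * (N - neg P z).choose h := by
    calc ∑ R ∈ powersetCard (2 * h + 2) P, {L | IsBisector R L}.ncard ≤
        ∑ R ∈ powersetCard (2 * h + 2) P, #{z ∈ TP ε P | z.1 ∈ R ∧ z.2 ∈ R ∧ Hv R z.1 z.2} := by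
          apply sum_le_sum
          intro R hR
          exact bis_le' (mem_powersetCard.1 hR).1 hε
      _ = ∑ z ∈ TP ε P, #{R ∈ powersetCard (2 * h + 2) P | z.1 ∈ R ∧ z.2 ∈ R ∧ Hv R z.1 z.2} := by
          simp only [card_filter]
          exact sum_comm
      _ ≤ _ := by
          apply sum_le_sum
          intro z hz
          rw [mem_TP] at hz
          have hne : z.1 ≠ z.2 := by
            intro hc
            rw [hc] at hz
            exact lt_irrefl _ hz.2.2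
          have := split_card hP hz.1 hz.2.1 hne h
          have e : #P - 2 = N := by omega
          rw [e] at this
          exact this
  set X : ℝ := ((N + 2).choose (2 * h + 2) : ℝ) with hX
  have hX0 : 0 < X := by
    rw [hX]
    exact_mod_cast Nat.choose_pos (by omega)
  have h2 : ((∑ z ∈ TP ε P, (neg P z).choose h * (N - neg P z).choose h : ℕ) : ℝ) =
      (∑ z ∈ TP ε P, wt N h (neg P z)) * X := by
    rw [Nat.cast_sum, sum_mul]
    apply sum_congr rfl
    intro z hz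
    rw [mem_TP] at hz
    have hne : z.1 ≠ z.2 := by
      intro hc
      rw [hc] at hz
      exact lt_irrefl _ hz.2.2
    have h3 := card3 hP hz.1 hz.2.1 hne
    have h4 : neg P z ≤ N := by
      unfold neg
      omega
    unfold wt
    rw [if_pos h4, div_mul_cancel₀ _ hX0.ne']
  have h5 := weighted hP hε (w := wt N h) (M := 2 * (((2 * h + 2 : ℕ) : ℝ) / ((N + 2 : ℕ) : ℝ)) ^ 2 *
      √(((N + 2 : ℕ) : ℝ) / (((2 * h + 2 : ℕ) : ℝ) * ((N - 2 * h + 1 : ℕ) : ℝ))))
    (s := ((2 * h + 2 : ℕ) : ℝ) / ((N + 2 : ℕ) : ℝ)) (by positivity) (by positivity)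
    (wt_nonneg N h) (wt_le hNh) (by rw [hN, wt_sum hNh])
  rw [hN] at h5 ⊢
  have e2 : N + 2 - (2 * h + 2) + 1 = N - 2 * h + 1 := by omega
  rw [e2]
  rw [final_eq (by positivity) (by positivity) (by positivity)] at h5
  calc ((∑ R ∈ powersetCard (2 * h + 2) P, {L | IsBisector R L}.ncard : ℕ) : ℝ) ≤
      ((∑ z ∈ TP ε P, (neg P z).choose h * (N - neg P z).choose h : ℕ) : ℝ) := by exact_mod_cast h1
    _ = (∑ z ∈ TP ε P, wt N h (neg P z)) * X := h2
    _ ≤ _ := mul_le_mul_of_nonneg_right h5 hX0.le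

end Pool.Agent.Q102.HL
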