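import Mathlib

set_option autoImplicit false

/-!
# Two lines with a quarter of the points in each of the four quadrants
-/

namespace Pool.Agent.Q102.HL

open Finset

open scoped Classical in
/-- the `k`-th smallest of finitely many continuous functions is continuous -/
lemma kth {ι : Type*} (S : Finset ι) (f : ι → ℝ → ℝ) (hf : ∀ p ∈ S, Continuous (f p)) {k : ℕ}
    (h1 : 1 ≤ k) (h2 : k ≤ #S) : ∃ m : ℝ → ℝ, Continuous m ∧
      ∀ y, k ≤ #{p ∈ S | f p y ≤ m y} ∧ #{p ∈ S | f p y < m y} < k := by
  have hne : (powersetCard k S).Nonempty := powersetCard_nonempty.2 h2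
  have hT : ∀ T ∈ powersetCard k S, T.Nonempty := by
    intro T hT
    rw [mem_powersetCard] at hT
    rw [← card_pos]
    omega
  let g : Finset ι → ℝ → ℝ := fun T y => if h : T.Nonempty then T.sup' h (fun p => f p y) else 0
  have hg : ∀ T ∈ powersetCard k S, Continuous (g T) := by
    intro T hTm
    have h3 : T.Nonempty := hT T hTm
    have h4 : g T = fun y => T.sup' h3 (fun p => f p y) := by
      funext y
      show (if h : T.Nonempty then T.sup' h (fun p => f p y) else 0) = _
      rw [dif_pos h3]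
    rw [h4]
    exact Continuous.finset_sup'_apply h3 fun p hp => hf p ((mem_powersetCard.1 hTm).1 hp)
  refine ⟨fun y => (powersetCard k S).inf' hne (fun T => g T y),
    Continuous.finset_inf'_apply hne hg, ?_⟩
  intro y
  constructor
  · obtain ⟨T, hTm, hTe⟩ := exists_mem_eq_inf' hne (fun T => g T y)
    have h3 : T.Nonempty := hT T hTm
    have h4 : g T y = T.sup' h3 (fun p => f p y) := by
      show (if h : T.Nonempty then T.sup' h (fun p => f p y) else 0) = _
      rw [dif_pos h3]
    have h5 : k = #T := (mem_powersetCard.1 hTm).2.symm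
    refine h5.le.trans (card_le_card ?_)
    intro p hp
    rw [mem_filter]
    refine ⟨(mem_powersetCard.1 hTm).1 hp, ?_⟩
    show f p y ≤ (powersetCard k S).inf' hne (fun T => g T y)
    rw [hTe, h4]
    exact le_sup' (fun p => f p y) hp
  · by_contra hcon
    push Not at hcon
    obtain ⟨T, hTs, hTc⟩ := exists_subset_card_eq hcon
    have hTm : T ∈ powersetCard k S := mem_powersetCard.2 ⟨hTs.trans (filter_subset _ _), hTc⟩
    have h3 : T.Nonempty := hT T hTm
    have h4 : g T y = T.sup' h3 (fun p => f p y) := by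
      show (if h : T.Nonempty then T.sup' h (fun p => f p y) else 0) = _
      rw [dif_pos h3]
    have h5 : (powersetCard k S).inf' hne (fun T => g T y) ≤ g T y := inf'_le (fun T => g T y) hTm
    rw [h4] at h5
    have h6 : T.sup' h3 (fun p => f p y) <
        (powersetCard k S).inf' hne (fun T => g T y) := by
      rw [sup'_lt_iff]
      intro p hp
      exact (mem_filter.1 (hTs hp)).2
    linarith

open scoped Classical in
/-- **two lines with many points in each of the four quadrants** -/
lemma quad {ι : Type*} (P : Finset ι) (X Y : ι → ℝ) (hX : ∀ p ∈ P, ∀ q ∈ P, X p = X q → p = q)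
    (h3 : ∀ a b : ℝ, #{p ∈ P | Y p = a + b * X p} ≤ 2) {K : ℕ} (hK : 4 * K + 8 ≤ #P) :
    ∃ c y s : ℝ,
      K ≤ #{p ∈ P | 0 < X p - c ∧ 0 < (Y p - y) - s * (X p - c)} ∧
      K ≤ #{p ∈ P | 0 < X p - c ∧ (Y p - y) - s * (X p - c) < 0} ∧
      K ≤ #{p ∈ P | X p - c < 0 ∧ 0 < (Y p - y) - s * (X p - c)} ∧
      K ≤ #{p ∈ P | X p - c < 0 ∧ (Y p - y) - s * (X p - c) < 0} := by
  obtain ⟨m, -, hm⟩ := kth P (fun p _ => X p) (fun p _ => continuous_const) (k := #P / 2)
    (by omega) (by omega)
  obtain ⟨c, hc⟩ : ∃ c, c = m 0 := ⟨_, rfl⟩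
  obtain ⟨hm1, hm2⟩ := hm 0
  rw [← hc] at hm1 hm2
  have hle : #{p ∈ P | X p ≤ c} ≤ #{p ∈ P | X p < c} + 1 := by
    have h4 : ({p ∈ P | X p ≤ c} : Finset ι) ⊆ {p ∈ P | X p < c} ∪ {p ∈ P | X p = c} := by
      intro p hp
      rw [mem_filter] at hp
      rw [mem_union, mem_filter, mem_filter]
      rcases hp.2.lt_or_eq with h | h
      · exact Or.inl ⟨hp.1, h⟩
      · exact Or.inr ⟨hp.1, h⟩
    have h5 : #{p ∈ P | X p = c} ≤ 1 := by
      rw [card_le_one]
      intro p hp q hq
      rw [mem_filter] at hp hq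
      exact hX p hp.1 q hq.1 (hp.2.trans hq.2.symm)
    have := card_le_card h4
    have := card_union_le {p ∈ P | X p < c} {p ∈ P | X p = c}
    omega
  have hgt : #{p ∈ P | X p ≤ c} + #{p ∈ P | c < X p} = #P := by
    have := card_filter_add_card_filter_not (s := P) (fun p => X p ≤ c)
    simp only [not_le] at this
    exact this
  set L : Finset ι := {p ∈ P | X p < c} with hL
  set R : Finset ι := {p ∈ P | c < X p} with hR
  have hLc : #P / 2 - 1 ≤ #L := by omega
  have hRc : #P / 2 ≤ #R := by omega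
  have hσ : ∀ p : ι, Continuous (fun y : ℝ => (Y p - y) / (X p - c)) := by
    intro p
    fun_prop
  obtain ⟨mL, hmLc, hmL⟩ := kth L (fun p y => (Y p - y) / (X p - c)) (fun p _ => hσ p)
    (k := K + 2) (by omega) (by omega)
  obtain ⟨mR, hmRc, hmR⟩ := kth R (fun p y => (Y p - y) / (X p - c)) (fun p _ => hσ p)
    (k := K + 2) (by omega) (by omega)
  have hPne : P.Nonempty := by
    rw [← card_pos]
    omega
  have hex1 : ∃ y, mL y - mR y ≤ 0 := by
    refine ⟨P.inf' hPne Y, ?_⟩
    have hy : ∀ p ∈ P, P.inf' hPne Y ≤ Y p := fun p hp => inf'_le Y hp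
    set y := P.inf' hPne Y
    have e1 : mL y ≤ 0 := by
      by_contra hcon
      push Not at hcon
      have h4 := (hmL y).2
      have h5 : L ⊆ ({p ∈ L | (Y p - y) / (X p - c) < mL y} : Finset ι) := by
        intro p hp
        rw [mem_filter]
        refine ⟨hp, lt_of_le_of_lt ?_ hcon⟩
        have hp' := mem_filter.1 hp
        apply div_nonpos_of_nonneg_of_nonpos
        · linarith [hy p hp'.1]
        · linarith [hp'.2]
      have := card_le_card h5
      omega
    have e2 : 0 ≤ mR y := by
      have h4 := (hmR y).1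
      have h5 : ({p ∈ R | (Y p - y) / (X p - c) ≤ mR y} : Finset ι).Nonempty := by
        rw [← card_pos]
        omega
      obtain ⟨p, hp⟩ := h5
      rw [mem_filter] at hp
      have hp' := mem_filter.1 hp.1
      refine le_trans ?_ hp.2
      apply div_nonneg
      · linarith [hy p hp'.1]
      · linarith [hp'.2]
    linarith
  have hex2 : ∃ y, 0 ≤ mL y - mR y := by
    refine ⟨P.sup' hPne Y, ?_⟩
    have hy : ∀ p ∈ P, Y p ≤ P.sup' hPne Y := fun p hp => le_sup' Y hp
    set y := P.sup' hPne Y
    have e1 : mR y ≤ 0 := by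
      by_contra hcon
      push Not at hcon
      have h4 := (hmR y).2
      have h5 : R ⊆ ({p ∈ R | (Y p - y) / (X p - c) < mR y} : Finset ι) := by
        intro p hp
        rw [mem_filter]
        refine ⟨hp, lt_of_le_of_lt ?_ hcon⟩
        have hp' := mem_filter.1 hp
        apply div_nonpos_of_nonpos_of_nonneg
        · linarith [hy p hp'.1]
        · linarith [hp'.2]
      have := card_le_card h5
      omega
    have e2 : 0 ≤ mL y := by
      have h4 := (hmL y).1
      have h5 : ({p ∈ L | (Y p - y) / (X p - c) ≤ mL y} : Finset ι).Nonempty := by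
        rw [← card_pos]
        omega
      obtain ⟨p, hp⟩ := h5
      rw [mem_filter] at hp
      have hp' := mem_filter.1 hp.1
      refine le_trans ?_ hp.2
      apply div_nonneg_of_nonpos
      · linarith [hy p hp'.1]
      · linarith [hp'.2]
    linarith
  obtain ⟨y, hy⟩ := mem_range_of_exists_le_of_exists_ge (hmLc.sub hmRc) hex1 hex2
  have hy' : mL y - mR y = 0 := hy
  obtain ⟨s, hs⟩ : ∃ s, s = mR y := ⟨_, rfl⟩
  have hs' : s = mL y := by linarith
  have hL1 := (hmL y).1
  have hL2 := (hmL y).2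
  have hR1 := (hmR y).1
  have hR2 := (hmR y).2
  rw [← hs'] at hL1 hL2
  rw [← hs] at hR1 hR2
  -- the points on the line
  have hon : ∀ A ⊆ P, (∀ p ∈ A, X p - c ≠ 0) →
      #{p ∈ A | (Y p - y) / (X p - c) ≤ s} ≤ #{p ∈ A | (Y p - y) / (X p - c) < s} + 2 := by
    intro A hA hAc
    have h4 : ({p ∈ A | (Y p - y) / (X p - c) ≤ s} : Finset ι) ⊆
        {p ∈ A | (Y p - y) / (X p - c) < s} ∪ {p ∈ P | Y p = (y - s * c) + s * X p} := by
      intro p hp
      rw [mem_filter] at hp
      rw [mem_union, mem_filter, mem_filter]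
      rcases hp.2.lt_or_eq with h | h
      · exact Or.inl ⟨hp.1, h⟩
      · refine Or.inr ⟨hA hp.1, ?_⟩
        rw [div_eq_iff (hAc p hp.1)] at h
        linarith
    have := card_le_card h4
    have := card_union_le {p ∈ A | (Y p - y) / (X p - c) < s}
      {p ∈ P | Y p = (y - s * c) + s * X p}
    have := h3 (y - s * c) s
    omega
  have hLP : L ⊆ P := filter_subset _ _
  have hRP : R ⊆ P := filter_subset _ _
  have hLn : ∀ p ∈ L, X p - c < 0 := fun p hp => by
    have := (mem_filter.1 hp).2
    linarith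
  have hRn : ∀ p ∈ R, 0 < X p - c := fun p hp => by
    have := (mem_filter.1 hp).2
    linarith
  have hLon := hon L hLP (fun p hp => (hLn p hp).ne)
  have hRon := hon R hRP (fun p hp => (hRn p hp).ne')
  have hLg : #{p ∈ L | (Y p - y) / (X p - c) ≤ s} + #{p ∈ L | s < (Y p - y) / (X p - c)} = #L := by
    have := card_filter_add_card_filter_not (s := L) (fun p => (Y p - y) / (X p - c) ≤ s)
    simp only [not_le] at this
    exact this
  have hRg : #{p ∈ R | (Y p - y) / (X p - c) ≤ s} + #{p ∈ R | s < (Y p - y) / (X p - c)} = #R := by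
    have := card_filter_add_card_filter_not (s := R) (fun p => (Y p - y) / (X p - c) ≤ s)
    simp only [not_le] at this
    exact this
  refine ⟨c, y, s, ?_, ?_, ?_, ?_⟩
  · refine le_trans (b := #{p ∈ R | s < (Y p - y) / (X p - c)}) (by omega) (card_le_card ?_)
    intro p hp
    rw [mem_filter] at hp ⊢
    have h4 := hRn p hp.1
    refine ⟨hRP hp.1, h4, ?_⟩
    have := hp.2
    rw [lt_div_iff₀ h4] at this
    linarith
  · refine le_trans (b := #{p ∈ R | (Y p - y) / (X p - c) < s}) (by omega) (card_le_card ?_)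
    intro p hp
    rw [mem_filter] at hp ⊢
    have h4 := hRn p hp.1
    refine ⟨hRP hp.1, h4, ?_⟩
    have := hp.2
    rw [div_lt_iff₀ h4] at this
    linarith
  · refine le_trans (b := #{p ∈ L | (Y p - y) / (X p - c) < s}) (by omega) (card_le_card ?_)
    intro p hp
    rw [mem_filter] at hp ⊢
    have h4 := hLn p hp.1
    refine ⟨hLP hp.1, h4, ?_⟩
    have := hp.2
    rw [div_lt_iff_of_neg h4] at this
    linarith
  · refine le_trans (b := #{p ∈ L | s < (Y p - y) / (X p - c)}) (by omega) (card_le_card ?_)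
    intro p hp
    rw [mem_filter] at hp ⊢
    have h4 := hLn p hp.1
    refine ⟨hLP hp.1, h4, ?_⟩
    have := hp.2
    rw [lt_div_iff_of_neg h4] at this
    linarith

end Pool.Agent.Q102.HL
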