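import Pool.Agent.Q102.HL.Count
import Pool.Agent.Q102.HL.Ham

set_option autoImplicit false

/-!
# Deleting few points destroys most halving lines
-/

namespace Pool.Agent.Q102.HL

open Finset Pool.Agent.W296.HL Pool.Agent.Y429.HalvFew

lemma chain {α : Type*} (S : Finset α) {D : ℕ} (h : 2 * D ≤ #S) :
    ∃ T : ℕ → Finset α, (∀ j, T j ⊆ S) ∧ ∀ j ≤ D, #(T j) = 2 * j := by
  have : ∀ j, ∃ T ⊆ S, j ≤ D → #T = 2 * j := by
    intro j
    by_cases hj : j ≤ D
    · obtain ⟨T, hT, hc⟩ := exists_subset_card_eq (show 2 * j ≤ #S by omega)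
      exact ⟨T, hT, fun _ => hc⟩
    · exact ⟨∅, empty_subset _, fun h => absurd h hj⟩
  choose T hT hc using this
  exact ⟨T, hT, hc⟩

section fam

variable {κ : Type*} [Fintype κ]

open scoped Classical in
/-- the points that remain -/
noncomputable def del (P : Finset (ℝ × ℝ)) (T : κ → ℕ → Finset (ℝ × ℝ)) (j : κ → ℕ) :
    Finset (ℝ × ℝ) := P \ univ.biUnion (fun k => T k (j k))

variable {P : Finset (ℝ × ℝ)} {S : κ → Finset (ℝ × ℝ)} {T : κ → ℕ → Finset (ℝ × ℝ)} {D : ℕ}

lemma mem_del {j : κ → ℕ} {x : ℝ × ℝ} : x ∈ del P T j ↔ x ∈ P ∧ ∀ k, x ∉ T k (j k) := by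
  unfold del
  rw [mem_sdiff, mem_biUnion]
  simp

lemma card_del (hSP : ∀ k, S k ⊆ P) (hS : ∀ k l, k ≠ l → Disjoint (S k) (S l))
    (hT : ∀ k j, T k j ⊆ S k) (hTc : ∀ k, ∀ j ≤ D, #(T k j) = 2 * j) {j : κ → ℕ}
    (hj : ∀ k, j k ≤ D) : #(del P T j) + 2 * ∑ k, j k = #P := by
  classical
  have h1 : univ.biUnion (fun k => T k (j k)) ⊆ P := by
    intro x hx
    rw [mem_biUnion] at hx
    obtain ⟨k, -, hx⟩ := hx
    exact hSP k (hT k _ hx)
  have h2 : #(univ.biUnion (fun k => T k (j k))) = 2 * ∑ k, j k := by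
    rw [card_biUnion, mul_sum]
    · exact sum_congr rfl fun k _ => hTc k _ (hj k)
    · intro k _ l _ hkl
      exact Disjoint.mono (hT k _) (hT l _) (hS k l hkl)
  rw [← h2]
  unfold del
  convert card_sdiff_add_card_eq_card h1

open scoped Classical in
/-- few choices keep a pair halving -/
lemma few (hSP : ∀ k, S k ⊆ P) (hS : ∀ k l, k ≠ l → Disjoint (S k) (S l))
    (hT : ∀ k j, T k j ⊆ S k) (hTc : ∀ k, ∀ j ≤ D, #(T k j) = 2 * j)
    {z : (ℝ × ℝ) × (ℝ × ℝ)} (hne : z.1 ≠ z.2)
    (hz : ∃ k, (∀ x ∈ S k, cr z.1 z.2 x < 0) ∨ (∀ x ∈ S k, 0 < cr z.1 z.2 x)) :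
    (D + 1) * #{j ∈ Fintype.piFinset (fun _ : κ => range (D + 1)) | z.1 ∈ del P T j ∧
      z.2 ∈ del P T j ∧ Hv (del P T j) z.1 z.2} ≤
      #(Fintype.piFinset (fun _ : κ => range (D + 1))) := by
  obtain ⟨k0, hk0⟩ := hz
  nth_rewrite 1 [← card_range (D + 1)]
  rw [← card_product]
  refine card_le_card_of_injOn (fun q => Function.update q.2 k0 q.1) ?_ ?_
  · rintro ⟨i, j⟩ hq
    rw [mem_coe, mem_product, mem_filter, Fintype.mem_piFinset] at hq
    rw [mem_coe, Fintype.mem_piFinset]
    intro k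
    simp only at hq ⊢
    by_cases hk : k = k0
    · rw [hk, Function.update_self]
      exact hq.1
    · rw [Function.update_of_ne hk]
      exact hq.2.1 k
  · rintro ⟨i, j⟩ hq ⟨i', j'⟩ hq' he
    rw [mem_coe, mem_product, mem_filter, Fintype.mem_piFinset] at hq hq'
    simp only at hq hq' he
    obtain ⟨-, hj, hv1, hv2, hv⟩ := hq
    obtain ⟨-, hj', hv1', hv2', hv'⟩ := hq'
    have e1 : i = i' := by
      have := congrFun he k0
      rwa [Function.update_self, Function.update_self] at this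
    have e2 : ∀ k, k ≠ k0 → j k = j' k := by
      intro k hk
      have := congrFun he k
      rwa [Function.update_of_ne hk, Function.update_of_ne hk] at this
    have hjD : ∀ k, j k ≤ D := fun k => by
      have := mem_range.1 (hj k)
      omega
    have hjD' : ∀ k, j' k ≤ D := fun k => by
      have := mem_range.1 (hj' k)
      omega
    have c1 := card_del hSP hS hT hTc hjD
    have c2 := card_del hSP hS hT hTc hjD'
    have two : ∀ R : Finset (ℝ × ℝ), z.1 ∈ R → z.2 ∈ R → 2 ≤ #R := by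
      intro R h1 h2
      have h3 : ({z.1, z.2} : Finset (ℝ × ℝ)) ⊆ R := by
        intro x hx
        rw [mem_insert, mem_singleton] at hx
        rcases hx with rfl | rfl
        · exact h1
        · exact h2
      have := card_le_card h3
      rwa [card_pair hne] at this
    have t1 := two _ hv1 hv2
    have t2 := two _ hv1' hv2'
    have e3 : #(del P T j) / 2 - 1 = #(del P T j') / 2 - 1 := by
      rcases hk0 with hk0 | hk0
      · rw [← hv.2.1, ← hv'.2.1]
        congr 1
        ext x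
        rw [mem_filter, mem_filter, mem_del, mem_del]
        constructor
        · rintro ⟨⟨a1, a2⟩, a3⟩
          refine ⟨⟨a1, fun k hk => ?_⟩, a3⟩
          by_cases hkk : k = k0
          · subst hkk
            have := hk0 x (hT k _ hk)
            linarith
          · rw [← e2 k hkk] at hk
            exact a2 k hk
        · rintro ⟨⟨a1, a2⟩, a3⟩
          refine ⟨⟨a1, fun k hk => ?_⟩, a3⟩
          by_cases hkk : k = k0
          · subst hkk
            have := hk0 x (hT k _ hk)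
            linarith
          · rw [e2 k hkk] at hk
            exact a2 k hk
      · rw [← hv.2.2, ← hv'.2.2]
        congr 1
        ext x
        rw [mem_filter, mem_filter, mem_del, mem_del]
        constructor
        · rintro ⟨⟨a1, a2⟩, a3⟩
          refine ⟨⟨a1, fun k hk => ?_⟩, a3⟩
          by_cases hkk : k = k0
          · subst hkk
            have := hk0 x (hT k _ hk)
            linarith
          · rw [← e2 k hkk] at hk
            exact a2 k hk
        · rintro ⟨⟨a1, a2⟩, a3⟩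
          refine ⟨⟨a1, fun k hk => ?_⟩, a3⟩
          by_cases hkk : k = k0
          · subst hkk
            have := hk0 x (hT k _ hk)
            linarith
          · rw [e2 k hkk] at hk
            exact a2 k hk
    have e4 : ∑ k, j k = ∑ k, j' k := by omega
    have e5 : j k0 = j' k0 := by
      rw [← add_sum_erase univ j (mem_univ k0), ← add_sum_erase univ j' (mem_univ k0)] at e4
      have e6 : ∑ k ∈ univ.erase k0, j k = ∑ k ∈ univ.erase k0, j' k :=
        sum_congr rfl fun k hk => e2 k (ne_of_mem_erase hk)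
      omega
    rw [e1]
    congr 1
    funext k
    by_cases hk : k = k0
    · rw [hk]; exact e5
    · exact e2 k hk

open scoped Classical in
/-- a pair that halves the rest is nearly halving -/
lemma near (hSP : ∀ k, S k ⊆ P) (hS : ∀ k l, k ≠ l → Disjoint (S k) (S l))
    (hT : ∀ k j, T k j ⊆ S k) (hTc : ∀ k, ∀ j ≤ D, #(T k j) = 2 * j) {j : κ → ℕ}
    (hj : ∀ k, j k ≤ D) {z : (ℝ × ℝ) × (ℝ × ℝ)} (h2 : 2 ≤ #(del P T j))
    (hv : Hv (del P T j) z.1 z.2) :
    neg P z ∈ Icc (#P / 2 - 1 - Fintype.card κ * D) (#P / 2 - 1 + Fintype.card κ * D) := by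
  have c1 := card_del hSP hS hT hTc hj
  have c2 : ∑ k, j k ≤ Fintype.card κ * D := by
    refine (sum_le_card_nsmul univ j D fun k _ => hj k).trans ?_
    rw [smul_eq_mul, card_univ]
  have c3 : neg P z = #{x ∈ del P T j | cr z.1 z.2 x < 0} +
      #{x ∈ P \ del P T j | cr z.1 z.2 x < 0} := by
    unfold neg
    rw [← card_union_of_disjoint]
    · congr 1
      ext x
      rw [mem_union, mem_filter, mem_filter, mem_filter, mem_sdiff]
      have : x ∈ del P T j → x ∈ P := fun h => (mem_del.1 h).1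
      tauto
    · rw [disjoint_left]
      intro x hx hx'
      rw [mem_filter] at hx hx'
      exact (mem_sdiff.1 hx'.1).2 hx.1
  have c4 : #{x ∈ P \ del P T j | cr z.1 z.2 x < 0} ≤ 2 * ∑ k, j k := by
    refine (card_filter_le _ _).trans ?_
    have hsub : del P T j ⊆ P := fun x hx => (mem_del.1 hx).1
    have := card_sdiff_add_card_eq_card hsub
    omega
  rw [hv.2.2] at c3
  rw [mem_Icc]
  omega

lemma two_le {R : Finset (ℝ × ℝ)} {p q : ℝ × ℝ} (hne : p ≠ q) (h1 : p ∈ R) (h2 : q ∈ R) :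
    2 ≤ #R := by
  classical
  have h3 : ({p, q} : Finset (ℝ × ℝ)) ⊆ R := by
    intro x hx
    rw [mem_insert, mem_singleton] at hx
    rcases hx with rfl | rfl
    · exact h1
    · exact h2
  have := card_le_card h3
  rwa [card_pair hne] at this

open scoped Classical in
/-- some choice of the deleted points leaves few bisectors -/
lemma exists_del {ε : ℝ} (hε : ∀ x ∈ P, ∀ y ∈ P, (shr ε x).1 = (shr ε y).1 → x = y)
    (hSP : ∀ k, S k ⊆ P) (hS : ∀ k l, k ≠ l → Disjoint (S k) (S l))
    (hD : ∀ k, 2 * D ≤ #(S k))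
    (hz : ∀ z ∈ TP ε P, ∃ k, (∀ x ∈ S k, cr z.1 z.2 x < 0) ∨ (∀ x ∈ S k, 0 < cr z.1 z.2 x)) :
    ∃ R ⊆ P, (∃ t ≤ Fintype.card κ * D, #R + 2 * t = #P) ∧
      (D + 1) * {L | IsBisector R L}.ncard ≤
        #{z ∈ TP ε P | neg P z ∈
          Icc (#P / 2 - 1 - Fintype.card κ * D) (#P / 2 - 1 + Fintype.card κ * D)} := by
  have hch : ∀ k, ∃ T : ℕ → Finset (ℝ × ℝ), (∀ j, T j ⊆ S k) ∧ ∀ j ≤ D, #(T j) = 2 * j :=
    fun k => chain (S k) (hD k)
  choose T hT hTc using hch
  set J : Finset (κ → ℕ) := Fintype.piFinset (fun _ : κ => range (D + 1)) with hJ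
  have hJne : J.Nonempty := by
    rw [hJ, Fintype.piFinset_nonempty]
    exact fun _ => ⟨0, mem_range.2 (by omega)⟩
  set W := Icc (#P / 2 - 1 - Fintype.card κ * D) (#P / 2 - 1 + Fintype.card κ * D) with hW
  have hJD : ∀ j ∈ J, ∀ k, j k ≤ D := by
    intro j hj k
    have := mem_range.1 (Fintype.mem_piFinset.1 hj k)
    omega
  have hsub : ∀ j, del P T j ⊆ P := fun j x hx => (mem_del.1 hx).1
  have h1 : ∑ j ∈ J, (D + 1) * {L | IsBisector (del P T j) L}.ncard ≤
      ∑ j ∈ J, #{z ∈ TP ε P | neg P z ∈ W} := by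
    calc ∑ j ∈ J, (D + 1) * {L | IsBisector (del P T j) L}.ncard ≤
        ∑ j ∈ J, (D + 1) * #{z ∈ {z ∈ TP ε P | neg P z ∈ W} | z.1 ∈ del P T j ∧
          z.2 ∈ del P T j ∧ Hv (del P T j) z.1 z.2} := by
          apply sum_le_sum
          intro j hj
          apply Nat.mul_le_mul_left
          refine (bis_le' (hsub j) hε).trans (card_le_card ?_)
          intro z hz'
          rw [mem_filter] at hz' ⊢
          refine ⟨mem_filter.2 ⟨hz'.1, ?_⟩, hz'.2⟩
          exact near hSP hS hT hTc (hJD j hj) (two_le hz'.2.2.2.1 hz'.2.1 hz'.2.2.1) hz'.2.2.2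
      _ = ∑ z ∈ {z ∈ TP ε P | neg P z ∈ W}, (D + 1) * #{j ∈ J | z.1 ∈ del P T j ∧
          z.2 ∈ del P T j ∧ Hv (del P T j) z.1 z.2} := by
          rw [← mul_sum, ← mul_sum]
          congr 1
          simp only [card_filter]
          exact sum_comm
      _ ≤ ∑ z ∈ {z ∈ TP ε P | neg P z ∈ W}, #J := by
          apply sum_le_sum
          intro z hz'
          have hzT := (mem_filter.1 hz').1
          have hne : z.1 ≠ z.2 := by
            intro hc
            have := (mem_TP.1 hzT).2.2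
            rw [hc] at this
            exact lt_irrefl _ this
          exact few hSP hS hT hTc hne (hz z hzT)
      _ = ∑ j ∈ J, #{z ∈ TP ε P | neg P z ∈ W} := by
          rw [sum_const, sum_const, smul_eq_mul, smul_eq_mul, mul_comm]
  obtain ⟨j, hj, h2⟩ := exists_le_of_sum_le hJne h1
  refine ⟨del P T j, hsub j, ⟨∑ k, j k, ?_, card_del hSP hS hT hTc (hJD j hj)⟩, h2⟩
  refine (sum_le_card_nsmul univ j D fun k _ => hJD j hj k).trans ?_
  rw [smul_eq_mul, card_univ]

end fam

end Pool.Agent.Q102.HL
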