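import Pool.Agent.Q102.HL.Del

set_option autoImplicit false

/-!
# Deleting few points destroys most halving lines: the bound
-/

namespace Pool.Agent.Q102.HL

open Finset Pool.Agent.W296.HL Pool.Agent.Y429.HalvFew

/-- the four quadrants -/
def sg (a : Bool) (x : ℝ) : Prop := if a then 0 < x else x < 0

lemma sg_inj {a b : Bool} {x : ℝ} (h1 : sg a x) (h2 : sg b x) : a = b := by
  unfold sg at h1 h2
  cases a <;> cases b <;> simp at h1 h2 ⊢ <;> linarith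

open scoped Classical in
/-- four sets of points, one of which is missed by every line -/
lemma exists_four {P : Finset (ℝ × ℝ)} (hP : Gen P) {ε : ℝ}
    (hε : ∀ x ∈ P, ∀ y ∈ P, (shr ε x).1 = (shr ε y).1 → x = y) {D : ℕ}
    (hD : D = 0 ∨ 8 * D + 8 ≤ #P) :
    ∃ S : Bool × Bool → Finset (ℝ × ℝ), (∀ k, S k ⊆ P) ∧
      (∀ k l, k ≠ l → Disjoint (S k) (S l)) ∧ (∀ k, 2 * D ≤ #(S k)) ∧
      ∀ z ∈ TP ε P, ∃ k, (∀ x ∈ S k, cr z.1 z.2 x < 0) ∨ (∀ x ∈ S k, 0 < cr z.1 z.2 x) := by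
  rcases hD with hD | hD
  · refine ⟨fun _ => ∅, fun _ => empty_subset _, fun _ _ _ => disjoint_empty_left _,
      fun _ => by rw [hD]; simp, ?_⟩
    intro z _
    exact ⟨(true, true), Or.inl fun x hx => absurd hx (notMem_empty x)⟩
  have h3 : ∀ a b : ℝ, #{p ∈ P | (shr ε p).2 = a + b * (shr ε p).1} ≤ 2 := by
    intro a b
    by_contra hcon
    push Not at hcon
    rw [two_lt_card_iff] at hcon
    obtain ⟨p, q, r, hp, hq, hr, hpq, hpr, hqr⟩ := hcon
    rw [mem_filter] at hp hq hr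
    apply hP p hp.1 q hq.1 r hr.1 hpq hpr hqr
    rw [← cr_shr ε]
    unfold cr
    rw [hp.2, hq.2, hr.2]
    ring
  obtain ⟨c, y, s, h1, h2, h4, h5⟩ := quad P (fun p => (shr ε p).1) (fun p => (shr ε p).2) hε h3
    (K := 2 * D) (by omega)
  refine ⟨fun k => {p ∈ P | sg k.1 ((shr ε p).1 - c) ∧
    sg k.2 (((shr ε p).2 - y) - s * ((shr ε p).1 - c))}, fun k => filter_subset _ _, ?_, ?_, ?_⟩
  · intro k l hkl
    rw [disjoint_left]
    intro x hx hx'
    rw [mem_filter] at hx hx'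
    exact hkl (Prod.ext (sg_inj hx.2.1 hx'.2.1) (sg_inj hx.2.2 hx'.2.2))
  · rintro ⟨a, b⟩
    cases a <;> cases b <;> simp only [sg, if_true, Bool.false_eq_true, if_false]
    · exact h5
    · exact h4
    · exact h2
    · exact h1
  · intro z hz
    rw [mem_TP] at hz
    have hB : 0 < (shr ε z.2).1 - (shr ε z.1).1 := by linarith [hz.2.2]
    have hf : ∀ x, cr z.1 z.2 x = ((shr ε z.2).1 - (shr ε z.1).1) *
        (((shr ε x).2 - y) - s * ((shr ε x).1 - c)) +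
        (((shr ε z.2).1 - (shr ε z.1).1) * s - ((shr ε z.2).2 - (shr ε z.1).2)) *
          ((shr ε x).1 - c) +
        (((shr ε z.2).1 - (shr ε z.1).1) * (y - (shr ε z.1).2) -
          ((shr ε z.2).2 - (shr ε z.1).2) * (c - (shr ε z.1).1)) := by
      intro x
      rw [← cr_shr ε]
      unfold cr
      ring
    set B := (shr ε z.2).1 - (shr ε z.1).1 with hBd
    set A := B * s - ((shr ε z.2).2 - (shr ε z.1).2) with hA
    set G := B * (y - (shr ε z.1).2) - ((shr ε z.2).2 - (shr ε z.1).2) * (c - (shr ε z.1).1) with hG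
    rcases le_or_gt 0 G with hG0 | hG0 <;> rcases le_or_gt 0 A with hA0 | hA0
    · refine ⟨(true, true), Or.inr fun x hx => ?_⟩
      simp only [sg, if_true, mem_filter] at hx
      rw [hf]
      have e1 := mul_pos hB hx.2.2
      have e2 := mul_nonneg hA0 hx.2.1.le
      linarith
    · refine ⟨(false, true), Or.inr fun x hx => ?_⟩
      simp only [sg, if_true, mem_filter, Bool.false_eq_true, if_false] at hx
      rw [hf]
      have e1 := mul_pos hB hx.2.2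
      have e2 := mul_pos_of_neg_of_neg hA0 hx.2.1
      linarith
    · refine ⟨(false, false), Or.inl fun x hx => ?_⟩
      simp only [sg, mem_filter, Bool.false_eq_true, if_false] at hx
      rw [hf]
      have e1 := mul_neg_of_pos_of_neg hB hx.2.2
      have e2 := mul_nonpos_of_nonneg_of_nonpos hA0 hx.2.1.le
      linarith
    · refine ⟨(true, false), Or.inl fun x hx => ?_⟩
      simp only [sg, if_true, mem_filter, Bool.false_eq_true, if_false] at hx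
      rw [hf]
      have e1 := mul_neg_of_pos_of_neg hB hx.2.2
      have e2 := mul_neg_of_neg_of_pos hA0 hx.2.1
      linarith

open scoped Classical in
/-- the window of levels -/
lemma window_le {P : Finset (ℝ × ℝ)} (hP : Gen P) {ε : ℝ}
    (hε : ∀ x ∈ P, ∀ y ∈ P, (shr ε x).1 = (shr ε y).1 → x = y) {D : ℕ} (h2 : 2 ≤ #P)
    (hD : 8 * D ≤ #P) :
    (#{z ∈ TP ε P | neg P z ∈ Icc (#P / 2 - 1 - 4 * D) (#P / 2 - 1 + 4 * D)} : ℝ) ≤
      72 * #P * ((#P : ℝ) ^ (1 / 3 : ℝ) * (((D : ℝ) + 1) ^ (1 / 3 : ℝ)) ^ 2) := by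
  have h0 := band hP hε (Icc (#P / 2 - 1 - 4 * D) (#P / 2 - 1 + 4 * D))
    (K := #P / 2 - 1 + 4 * D) (fun k hk => (mem_Icc.1 hk).2)
  refine h0.trans ?_
  have h1 : (((#P / 2 - 1 + 4 * D : ℕ) : ℝ) + 1) ^ (1 / 3 : ℝ) ≤ (#P : ℝ) ^ (1 / 3 : ℝ) := by
    apply Real.rpow_le_rpow (by positivity) _ (by norm_num)
    have : #P / 2 - 1 + 4 * D + 1 ≤ #P := by omega
    exact_mod_cast this
  have h3 : ((Icc (#P / 2 - 1 - 4 * D) (#P / 2 - 1 + 4 * D)).card : ℝ) ^ (2 / 3 : ℝ) ≤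
      4 * (((D : ℝ) + 1) ^ (1 / 3 : ℝ)) ^ 2 := by
    have e1 : ((Icc (#P / 2 - 1 - 4 * D) (#P / 2 - 1 + 4 * D)).card : ℝ) ≤ 8 * ((D : ℝ) + 1) := by
      rw [Nat.card_Icc]
      have : #P / 2 - 1 + 4 * D + 1 - (#P / 2 - 1 - 4 * D) ≤ 8 * (D + 1) := by omega
      exact_mod_cast this
    refine (Real.rpow_le_rpow (by positivity) e1 (by norm_num)).trans ?_
    rw [Real.mul_rpow (by norm_num) (by positivity)]
    have e2 : (8 : ℝ) ^ (2 / 3 : ℝ) = 4 := by
      rw [show (8 : ℝ) = 2 ^ (3 : ℝ) by norm_num, ← Real.rpow_mul (by norm_num)]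
      norm_num
    have e3 : (((D : ℝ) + 1) ^ (1 / 3 : ℝ)) ^ 2 = ((D : ℝ) + 1) ^ (2 / 3 : ℝ) := by
      rw [← Real.rpow_natCast, ← Real.rpow_mul (by positivity)]
      norm_num
    rw [e2, e3]
  calc 18 * (#P : ℝ) * ((((#P / 2 - 1 + 4 * D : ℕ) : ℝ) + 1) ^ (1 / 3 : ℝ) *
        ((Icc (#P / 2 - 1 - 4 * D) (#P / 2 - 1 + 4 * D)).card : ℝ) ^ (2 / 3 : ℝ)) ≤
      18 * (#P : ℝ) * ((#P : ℝ) ^ (1 / 3 : ℝ) * (4 * (((D : ℝ) + 1) ^ (1 / 3 : ℝ)) ^ 2)) := by
        gcongr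
    _ = _ := by ring

/-- arithmetic -/
lemma arith {b n δ : ℝ} {D : ℕ} (hn : 0 < n) (hδ : 0 < δ) (hD : δ * n ≤ 16 * ((D : ℝ) + 1))
    (h : ((D : ℝ) + 1) * b ≤ 72 * n * (n ^ (1 / 3 : ℝ) * (((D : ℝ) + 1) ^ (1 / 3 : ℝ)) ^ 2)) :
    b ≤ 182 * n * (1 / δ) ^ (1 / 3 : ℝ) := by
  have cube : ∀ x : ℝ, 0 ≤ x → (x ^ (1 / 3 : ℝ)) ^ 3 = x := by
    intro x hx
    rw [← Real.rpow_natCast, ← Real.rpow_mul hx]
    norm_num
  have hD0 : (0 : ℝ) < (D : ℝ) + 1 := by positivity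
  set t := ((D : ℝ) + 1) ^ (1 / 3 : ℝ) with ht
  set a := n ^ (1 / 3 : ℝ) with ha
  have ht0 : 0 < t := by positivity
  have ha0 : 0 < a := by positivity
  have hd0 : 0 < δ ^ (1 / 3 : ℝ) := by positivity
  have ht3 : t ^ 3 = (D : ℝ) + 1 := cube _ hD0.le
  have ha3 : a ^ 3 = n := cube _ hn.le
  have hd3 : (δ ^ (1 / 3 : ℝ)) ^ 3 = δ := cube _ hδ.le
  set d := δ ^ (1 / 3 : ℝ) with hd
  have h1 : t * b ≤ 72 * n * a := by
    rw [← ht3] at h
    have h2 : t ^ 2 * (t * b) ≤ t ^ 2 * (72 * n * a) := by nlinarith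
    exact le_of_mul_le_mul_left h2 (by positivity)
  have h2 : d * a ≤ (182 / 72) * t := by
    have h3 : (d * a) ^ 3 ≤ ((182 / 72) * t) ^ 3 := by
      rw [mul_pow, mul_pow, hd3, ha3, ht3]
      nlinarith
    exact le_of_pow_le_pow_left₀ (by norm_num) (by positivity) h3
  rcases le_or_gt b 0 with hb | hb
  · refine hb.trans ?_
    positivity
  have h4 : (d * b) * a ≤ (182 * n) * a := by
    calc (d * b) * a = (d * a) * b := by ring
      _ ≤ ((182 / 72) * t) * b := mul_le_mul_of_nonneg_right h2 hb.le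
      _ = (182 / 72) * (t * b) := by ring
      _ ≤ (182 / 72) * (72 * n * a) := by linarith
      _ = (182 * n) * a := by ring
  have h5 : d * b ≤ 182 * n := le_of_mul_le_mul_right h4 ha0
  rw [one_div, Real.inv_rpow hδ.le, ← hd, ← div_eq_mul_inv, le_div_iff₀ hd0]
  linarith

open scoped Classical in
/-- **deleting few points destroys most halving lines** -/
theorem few_deletions {P : Finset (ℝ × ℝ)} (hP : Gen P) (hE : Even #P) {δ : ℝ} (h0 : 0 < δ)
    (h1 : δ ≤ 1) : ∃ R ⊆ P, Even #R ∧ (1 - δ) * #P ≤ #R ∧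
      ({L | IsBisector R L}.ncard : ℝ) ≤ 182 * #P * (1 / δ) ^ (1 / 3 : ℝ) := by
  obtain ⟨r, hr⟩ := hE
  rcases Nat.eq_zero_or_pos #P with hn | hn
  · rw [card_eq_zero] at hn
    subst hn
    refine ⟨∅, Subset.rfl, by simp, by simp, ?_⟩
    have : {L | IsBisector (∅ : Finset (ℝ × ℝ)) L} = ∅ := by
      ext L
      rw [Set.mem_empty_iff_false, iff_false]
      rintro ⟨a, b, c, -, -, ⟨p, hp, -⟩, -⟩
      exact notMem_empty p hp
    rw [this]
    simp
  obtain ⟨ε, hε⟩ := exists_shear P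
  set D : ℕ := ⌊δ * #P / 16⌋₊ with hD
  have hn0 : (0 : ℝ) < #P := by exact_mod_cast hn
  have hD1 : (D : ℝ) ≤ δ * #P / 16 := Nat.floor_le (by positivity)
  have hD2 : δ * #P / 16 < (D : ℝ) + 1 := Nat.lt_floor_add_one _
  have hDn : 16 * D ≤ #P := by
    have : (16 * D : ℝ) ≤ #P := by nlinarith
    exact_mod_cast this
  obtain ⟨S, hSP, hS, hSD, hz⟩ := exists_four hP hε (D := D) (by omega)
  obtain ⟨R, hR, ⟨t, ht, hRt⟩, hb⟩ := exists_del hε hSP hS hSD hz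
  have hc : Fintype.card (Bool × Bool) = 4 := by simp
  rw [hc] at ht hb
  refine ⟨R, hR, ?_, ?_, ?_⟩
  · rw [Nat.even_iff]
    omega
  · have e1 : (#R : ℝ) + 2 * t = #P := by exact_mod_cast hRt
    have e2 : (t : ℝ) ≤ 4 * D := by exact_mod_cast ht
    nlinarith
  · have h3 := window_le hP hε (D := D) (by omega) (by omega)
    have h4 : (((D + 1) * {L | IsBisector R L}.ncard : ℕ) : ℝ) ≤
        (#{z ∈ TP ε P | neg P z ∈ Icc (#P / 2 - 1 - 4 * D) (#P / 2 - 1 + 4 * D)} : ℝ) := by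
      exact_mod_cast hb
    push_cast at h4
    exact arith (D := D) hn0 h0 (by linarith) (h4.trans h3)

end Pool.Agent.Q102.HL
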